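import Pool.Agent.Lib.MP_7dd24e_an.Slice

set_option autoImplicit false
open MeasureTheory Set Metric
open scoped Real

namespace Pool.Agent.HollowShell

/-- Potential at distance `s` from the centre of a ball of radius `r`. -/
noncomputable def bp (r s : ℝ) : ℝ :=
  if r ≤ s then 4 / 3 * π * r ^ 3 / s else 2 * π * (r ^ 2 - s ^ 2 / 3)

lemma locInt_inv_norm : LocallyIntegrable (fun y : E => ‖y‖⁻¹) := by
  refine locallyIntegrable_of_norm_le_rpow (C := 1) (α := 1) (by simp) (by simp) ?_ ?_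
  · filter_upwards with x
    rw [Real.rpow_neg_one]
    simp
  · exact (measurable_norm.inv).aestronglyMeasurable

lemma integrableOn_inv_norm_sub (c : E) (R : ℝ) :
    IntegrableOn (fun y : E => ‖y - c‖⁻¹) (closedBall 0 R) := by
  have h := locInt_inv_norm.integrableOn_isCompact (isCompact_closedBall (-c) R)
  have h2 := (measurePreserving_sub_right (volume : Measure E) c).integrableOn_comp_preimage
    (Homeomorph.subRight c).measurableEmbedding (f := fun y : E => ‖y‖⁻¹)
    (s := closedBall (-c) R)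
  have h3 : (fun x : E => x - c) ⁻¹' closedBall (-c) R = closedBall 0 R := by
    ext x; simp [dist_eq_norm]
  rw [h3] at h2
  exact h2.2 h


lemma radial_integral (r a b : ℝ) (hb : b ≠ 0) :
    ∫ y in Ioi (0 : ℝ), y * (if a ^ 2 + y ^ 2 < r ^ 2 then (√(b ^ 2 + y ^ 2))⁻¹ else 0)
      = if a ^ 2 < r ^ 2 then (√(b ^ 2 + (r ^ 2 - a ^ 2)) - |b|) else 0 := by
  split_ifs with h
  · set R : ℝ := √(r ^ 2 - a ^ 2) with hR
    have hRpos : 0 < R := Real.sqrt_pos.2 (by linarith)
    have hR2 : R ^ 2 = r ^ 2 - a ^ 2 := Real.sq_sqrt (by linarith)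
    have h1 : ∀ y ∈ Ioi (0 : ℝ), y * (if a ^ 2 + y ^ 2 < r ^ 2 then (√(b ^ 2 + y ^ 2))⁻¹ else 0)
        = (Iio R).indicator (fun y => y * (√(b ^ 2 + y ^ 2))⁻¹) y := by
      intro y hy
      have hy0 : 0 < y := hy
      by_cases hyR : y < R
      · have : a ^ 2 + y ^ 2 < r ^ 2 := by nlinarith
        simp [hyR, this]
      · have : ¬ a ^ 2 + y ^ 2 < r ^ 2 := by
          push Not at hyR ⊢
          nlinarith
        simp [hyR, this]
    rw [setIntegral_congr_fun measurableSet_Ioi h1, setIntegral_indicator measurableSet_Iio]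
    have h2 : Ioi (0 : ℝ) ∩ Iio R = Ioo 0 R := rfl
    rw [h2, ← integral_Ioc_eq_integral_Ioo, ← intervalIntegral.integral_of_le hRpos.le]
    have hpos : ∀ y : ℝ, 0 < b ^ 2 + y ^ 2 := fun y => by positivity
    rw [intervalIntegral.integral_eq_sub_of_hasDerivAt (f := fun y => √(b ^ 2 + y ^ 2))]
    · rw [hR2]
      simp [Real.sqrt_sq_eq_abs]
    · intro y _
      have hd : HasDerivAt (fun y : ℝ => b ^ 2 + y ^ 2) (2 * y) y := by
        simpa using ((hasDerivAt_pow 2 y).const_add (b ^ 2))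
      have := hd.sqrt (hpos y).ne'
      convert! this using 1
      field_simp
    · apply Continuous.intervalIntegrable
      have : Continuous (fun y : ℝ => √(b ^ 2 + y ^ 2)) := by fun_prop
      refine continuous_id.mul (this.inv₀ fun y => (Real.sqrt_pos.2 (hpos y)).ne')
  · have h1 : ∀ y ∈ Ioi (0 : ℝ), y * (if a ^ 2 + y ^ 2 < r ^ 2 then (√(b ^ 2 + y ^ 2))⁻¹ else 0)
        = 0 := by
      intro y hy
      have : ¬ a ^ 2 + y ^ 2 < r ^ 2 := by
        push Not at h ⊢
        nlinarith [sq_nonneg y]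
      simp [this]
    rw [setIntegral_congr_fun measurableSet_Ioi h1]
    simp

/-- Inner integral: potential of a disc on its axis. -/
lemma inner_integral (r a b : ℝ) (hb : b ≠ 0) :
    ∫ w : P, (if a ^ 2 + ‖w‖ ^ 2 < r ^ 2 then (√(b ^ 2 + ‖w‖ ^ 2))⁻¹ else 0)
      = if a ^ 2 < r ^ 2 then 2 * π * (√(b ^ 2 + (r ^ 2 - a ^ 2)) - |b|) else 0 := by
  have hint := integral_fun_norm_addHaar (volume : Measure P)
    (fun t : ℝ => if a ^ 2 + t ^ 2 < r ^ 2 then (√(b ^ 2 + t ^ 2))⁻¹ else (0 : ℝ))
  rw [hint]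
  have hvol : (volume : Measure P).real (ball 0 1) = π := by
    rw [Measure.real, EuclideanSpace.volume_ball_fin_two]
    simp [Real.pi_nonneg]
  rw [hvol]
  simp only [finrank_euclideanSpace, Fintype.card_fin, smul_eq_mul, Nat.add_one_sub_one, pow_one]
  rw [radial_integral r a b hb]
  split_ifs
  · simp; ring
  · simp

/-- Outer integral. -/
lemma outer_integral (r s : ℝ) (hr : 0 < r) (hs : 0 < s) :
    ∫ a in (-r)..r, (√((a - s) ^ 2 + (r ^ 2 - a ^ 2)) - |a - s|)
      = if r ≤ s then 2 * r ^ 3 / (3 * s) else r ^ 2 - s ^ 2 / 3 := by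
  have hu : ∀ a : ℝ, (a - s) ^ 2 + (r ^ 2 - a ^ 2) = s ^ 2 + r ^ 2 - 2 * a * s := by
    intro a; ring
  simp only [hu]
  set G : ℝ → ℝ := fun a => -((s ^ 2 + r ^ 2 - 2 * a * s) * √(s ^ 2 + r ^ 2 - 2 * a * s)) / (3 * s)
    - (a - s) * |a - s| / 2 with hG
  have hcont : Continuous G := by
    rw [hG]; fun_prop
  have key : ∫ a in (-r)..r, (√(s ^ 2 + r ^ 2 - 2 * a * s) - |a - s|) = G r - G (-r) := by
    apply MeasureTheory.integral_eq_of_hasDerivAt_off_countable (s := {s}) _ _ (by simp)
      hcont.continuousOn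
    · rintro a ⟨ha, has⟩
      simp only [mem_singleton_iff] at has
      rw [min_eq_left (by linarith), max_eq_right (by linarith)] at ha
      have hupos : 0 < s ^ 2 + r ^ 2 - 2 * a * s := by
        nlinarith [sq_nonneg (s - r), ha.2, mul_pos hs (sub_pos.2 ha.2)]
      have hd : HasDerivAt (fun a : ℝ => s ^ 2 + r ^ 2 - 2 * a * s) (-(2 * s)) a := by
        have := ((hasDerivAt_id a).const_mul 2).mul_const s
        have h2 := this.const_sub (s ^ 2 + r ^ 2)
        simpa using h2
      have h1 := (hd.mul (hd.sqrt hupos.ne')).neg.div_const (3 * s)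
      have h3 : HasDerivAt (fun a : ℝ => (a - s) * |a - s| / 2) (|a - s|) a := by
        have hne : a - s ≠ 0 := sub_ne_zero.2 has
        have e1 : HasDerivAt (fun a : ℝ => a - s) 1 a := (hasDerivAt_id a).sub_const s
        have e2 : HasDerivAt (fun a : ℝ => |a - s|) (SignType.sign (a - s) * 1) a := by
          have := (hasDerivAt_abs hne).comp a e1
          exact this
        have e3 := (e1.mul e2).div_const 2
        convert! e3 using 1
        rcases lt_or_gt_of_ne hne with h | h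
        · rw [abs_of_neg h, sign_neg h]; simp
        · rw [abs_of_pos h, sign_pos h]; simp
      have h4 := h1.sub h3
      convert! h4 using 1
      have hsq : √(s ^ 2 + r ^ 2 - 2 * a * s) * √(s ^ 2 + r ^ 2 - 2 * a * s)
        = s ^ 2 + r ^ 2 - 2 * a * s := Real.mul_self_sqrt hupos.le
      have hsqpos := Real.sqrt_pos.2 hupos
      set q := √(s ^ 2 + r ^ 2 - 2 * a * s) with hq
      rw [← hsq]
      field_simp
      ring
    · apply Continuous.intervalIntegrable
      fun_prop
  rw [key, hG]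
  have e1 : s ^ 2 + r ^ 2 - 2 * r * s = (s - r) ^ 2 := by ring
  have e2 : s ^ 2 + r ^ 2 - 2 * (-r) * s = (s + r) ^ 2 := by ring
  simp only [e1, e2, Real.sqrt_sq_eq_abs]
  have e3 : |s + r| = s + r := abs_of_pos (by linarith)
  have e4 : |-r - s| = s + r := by rw [abs_of_neg (by linarith)]; ring
  rw [e3, e4]
  split_ifs with h
  · have e5 : |s - r| = s - r := abs_of_nonneg (by linarith)
    have e6 : |r - s| = s - r := by rw [abs_sub_comm]; exact e5
    rw [e5, e6]
    field_simp
    ring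
  · push Not at h
    have e5 : |s - r| = r - s := by rw [abs_of_neg (by linarith)]; ring
    have e6 : |r - s| = r - s := by rw [abs_sub_comm]; exact e5
    rw [e5, e6]
    field_simp
    ring


lemma mk_sub_mk_zero (a s : ℝ) (w : P) : mk a w - mk s 0 = mk (a - s) w := by
  ext i
  refine Fin.cases ?_ (fun j => ?_) i <;> simp [mk]

lemma ball_pot_axis (r s : ℝ) (hr : 0 < r) (hs : 0 < s) :
    ∫ z in ball (0 : E) r, ‖z - mk s 0‖⁻¹ = bp r s := by
  rw [← integral_indicator measurableSet_ball]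
  have hI : Integrable ((ball (0 : E) r).indicator (fun z : E => ‖z - mk s 0‖⁻¹)) := by
    rw [integrable_indicator_iff measurableSet_ball]
    exact (integrableOn_inv_norm_sub (mk s 0) r).mono_set ball_subset_closedBall
  rw [integral_slice hI]
  have h1 : ∀ᵐ a : ℝ, ∫ w : P, (ball (0 : E) r).indicator (fun z : E => ‖z - mk s 0‖⁻¹) (mk a w)
      = (Ioc (-r) r).indicator
        (fun a => 2 * π * (√((a - s) ^ 2 + (r ^ 2 - a ^ 2)) - |a - s|)) a := by
    have hne : ∀ᵐ a : ℝ, a ≠ s := by simp [ae_iff]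
    have hne2 : ∀ᵐ a : ℝ, a ≠ r := by simp [ae_iff]
    filter_upwards [hne, hne2] with a ha har
    have h2 : ∀ w : P, (ball (0 : E) r).indicator (fun z : E => ‖z - mk s 0‖⁻¹) (mk a w)
        = if a ^ 2 + ‖w‖ ^ 2 < r ^ 2 then (√((a - s) ^ 2 + ‖w‖ ^ 2))⁻¹ else 0 := by
      intro w
      have h3 : mk a w ∈ ball (0 : E) r ↔ a ^ 2 + ‖w‖ ^ 2 < r ^ 2 := by
        rw [mem_ball_zero_iff, ← norm_mk_sq]
        exact (sq_lt_sq₀ (norm_nonneg _) hr.le).symm
      simp only [indicator, h3, mk_sub_mk_zero, norm_mk]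
    simp only [h2]
    rw [inner_integral r a (a - s) (sub_ne_zero.2 ha)]
    have h4 : a ^ 2 < r ^ 2 ↔ a ∈ Ioc (-r) r := by
      rw [sq_lt_sq, abs_of_pos hr, abs_lt, mem_Ioc]
      constructor
      · rintro ⟨h, h'⟩; exact ⟨h, h'.le⟩
      · rintro ⟨h, h'⟩; exact ⟨h, lt_of_le_of_ne h' har⟩
    simp only [indicator, h4]
  rw [integral_congr_ae h1, integral_indicator measurableSet_Ioc,
    ← intervalIntegral.integral_of_le (by linarith), intervalIntegral.integral_const_mul,
    outer_integral r s hr hs, bp]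
  split_ifs
  · field_simp; ring
  · ring

lemma ball_pot_center (r : ℝ) (hr : 0 < r) :
    ∫ z in ball (0 : E) r, ‖z‖⁻¹ = bp r 0 := by
  rw [← integral_indicator measurableSet_ball]
  have h0 : (ball (0 : E) r).indicator (fun z : E => ‖z‖⁻¹)
      = fun z : E => (fun t : ℝ => if t < r then t⁻¹ else 0) ‖z‖ := by
    ext z
    simp [indicator]
  rw [h0, integral_fun_norm_addHaar]
  have hvol : (volume : Measure E).real (ball 0 1) = π * 4 / 3 := by
    rw [Measure.real, EuclideanSpace.volume_ball_fin_three]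
    simp
    positivity
  rw [hvol]
  simp only [finrank_euclideanSpace, Fintype.card_fin, smul_eq_mul]
  have h1 : ∀ y ∈ Ioi (0 : ℝ), y ^ (3 - 1) * (if y < r then y⁻¹ else 0)
      = (Iio r).indicator (fun y => y) y := by
    intro y hy
    have hy0 : 0 < y := hy
    by_cases h : y < r
    · simp [h]; field_simp
    · simp [h]
  rw [setIntegral_congr_fun measurableSet_Ioi h1, setIntegral_indicator measurableSet_Iio]
  have h2 : Ioi (0 : ℝ) ∩ Iio r = Ioo 0 r := rfl
  rw [h2, ← integral_Ioc_eq_integral_Ioo, ← intervalIntegral.integral_of_le hr.le]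
  simp [bp, not_le.2 hr]
  ring

/-- **Newton's theorem for balls**. -/
theorem ball_pot (x y : E) (r : ℝ) (hr : 0 < r) :
    ∫ z in ball x r, ‖z - y‖⁻¹ = bp r ‖x - y‖ := by
  -- translate
  have h1 : ∫ z in ball x r, ‖z - y‖⁻¹ = ∫ z in ball (0 : E) r, ‖z - (y - x)‖⁻¹ := by
    rw [← integral_indicator measurableSet_ball, ← integral_indicator measurableSet_ball,
      ← integral_add_right_eq_self _ x]
    congr 1
    ext z
    have : z + x ∈ ball x r ↔ z ∈ ball (0 : E) r := by simp [dist_eq_norm]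
    have h5 : z + x - y = z - (y - x) := by abel
    by_cases hz : z ∈ ball (0 : E) r
    · rw [indicator_of_mem hz, indicator_of_mem (this.2 hz), h5]
    · rw [indicator_of_notMem hz, indicator_of_notMem (mt this.1 hz)]
  rw [h1]
  rcases eq_or_ne y x with rfl | hxy
  · simp [ball_pot_center r hr]
  have hs : 0 < ‖y - x‖ := norm_pos_iff.2 (sub_ne_zero.2 hxy)
  rw [← norm_neg (x - y), neg_sub]
  set v := y - x with hv
  set s := ‖v‖ with hs_def
  have hnorm : ‖v‖ = ‖mk s 0‖ := by
    rw [norm_mk]; simp [hs_def]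
  -- reflection sending v to mk s 0
  set T : E ≃ₗᵢ[ℝ] E := (ℝ ∙ (v - mk s 0))ᗮ.reflection with hT
  have hTv : T v = mk s 0 := Submodule.reflection_sub hnorm
  have h2 : ∫ z in ball (0 : E) r, ‖z - v‖⁻¹ = ∫ z in ball (0 : E) r, ‖z - mk s 0‖⁻¹ := by
    have hcomp := T.measurePreserving.integral_comp T.toHomeomorph.measurableEmbedding
      ((ball (0 : E) r).indicator (fun z : E => ‖z - mk s 0‖⁻¹))
    rw [← integral_indicator measurableSet_ball, ← integral_indicator measurableSet_ball,
      ← hcomp]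
    congr 1
    ext z
    have h3 : T z ∈ ball (0 : E) r ↔ z ∈ ball (0 : E) r := by simp
    have h4 : ‖T z - mk s 0‖ = ‖z - v‖ := by
      rw [← hTv, ← map_sub, LinearIsometryEquiv.norm_map]
    by_cases hz : z ∈ ball (0 : E) r
    · rw [indicator_of_mem hz, indicator_of_mem (h3.2 hz), h4]
    · rw [indicator_of_notMem hz, indicator_of_notMem (mt h3.1 hz)]
  rw [h2, ball_pot_axis r s hr hs]

end Pool.Agent.HollowShell
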