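import Pool.Agent.Lib.MP_7dd24e_an.Pot

set_option autoImplicit false
open MeasureTheory Set Metric Filter
open scoped Real Topology

namespace Pool.Agent.HollowShell

lemma parallelogram_half (x y z : E) :
    ‖x - z‖ ^ 2 + ‖y - z‖ ^ 2 = 2 * ‖z - (2⁻¹ : ℝ) • (x + y)‖ ^ 2 + 2⁻¹ * ‖x - y‖ ^ 2 := by
  simp only [EuclideanSpace.norm_sq_eq, Fin.sum_univ_three, Real.norm_eq_abs, sq_abs]
  simp
  ring

lemma integral_two_gauss (x y : E) {u : ℝ} (hu : 0 < u) :
    ∫ z, Real.exp (-u * ‖x - z‖ ^ 2) * Real.exp (-u * ‖y - z‖ ^ 2)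
      = (π / (2 * u)) ^ (3 / 2 : ℝ) * Real.exp (-(u / 2) * ‖x - y‖ ^ 2) := by
  have h1 : ∀ z, Real.exp (-u * ‖x - z‖ ^ 2) * Real.exp (-u * ‖y - z‖ ^ 2)
      = Real.exp (-(u / 2) * ‖x - y‖ ^ 2) *
        Real.exp (-(2 * u) * ‖z - (2⁻¹ : ℝ) • (x + y)‖ ^ 2) := by
    intro z
    rw [← Real.exp_add, ← Real.exp_add]
    congr 1
    have := parallelogram_half x y z
    linear_combination (-u) * this
  simp only [h1]
  rw [integral_const_mul, integral_sub_right_eq_self (fun z => Real.exp (-(2 * u) * ‖z‖ ^ 2)),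
    GaussianFourier.integral_rexp_neg_mul_sq_norm (by positivity)]
  rw [mul_comm]
  simp

lemma integrable_gauss (x : E) {u : ℝ} (hu : 0 < u) :
    Integrable (fun z : E => Real.exp (-u * ‖x - z‖ ^ 2)) := by
  have h2 : Integrable (fun z : E => Real.exp (-u * ‖z‖ ^ 2)) := by
    by_contra h
    have h3 := integral_undef h
    rw [GaussianFourier.integral_rexp_neg_mul_sq_norm hu] at h3
    have : 0 < (π / u) ^ ((Module.finrank ℝ E : ℝ) / 2) := by positivity
    linarith
  exact h2.comp_sub_left x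

lemma integrable_two_gauss (x y : E) {u : ℝ} (hu : 0 < u) :
    Integrable (fun z : E => Real.exp (-u * ‖x - z‖ ^ 2) * Real.exp (-u * ‖y - z‖ ^ 2)) := by
  refine Integrable.bdd_mul (c := 1) (integrable_gauss y hu) ?_ ?_
  · exact (by fun_prop : Continuous fun z : E =>
      Real.exp (-u * ‖x - z‖ ^ 2)).aestronglyMeasurable
  · refine Eventually.of_forall fun z => ?_
    rw [Real.norm_eq_abs, abs_of_pos (Real.exp_pos _)]
    apply Real.exp_le_one_iff.2
    nlinarith [sq_nonneg (‖x - z‖), mul_nonneg hu.le (sq_nonneg (‖x - z‖))]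

lemma integrable_prod_gauss {h : E → ℝ} (hh : Adm h) {u : ℝ} (hu : 0 < u) :
    Integrable (fun p : E × E => h p.1 * h p.2 * Real.exp (-u * ‖p.1 - p.2‖ ^ 2)) := by
  rw [Measure.volume_eq_prod]
  refine Integrable.mul_bdd (c := 1) (hh.integrable.mul_prod hh.integrable) ?_ ?_
  · exact (by fun_prop : Continuous fun p : E × E =>
      Real.exp (-u * ‖p.1 - p.2‖ ^ 2)).aestronglyMeasurable
  · refine Eventually.of_forall fun p => ?_
    rw [Real.norm_eq_abs, abs_of_pos (Real.exp_pos _)]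
    apply Real.exp_le_one_iff.2
    nlinarith [sq_nonneg (‖p.1 - p.2‖), mul_nonneg hu.le (sq_nonneg (‖p.1 - p.2‖))]

lemma gauss_pos {h : E → ℝ} (hh : Adm h) {v : ℝ} (hv : 0 < v) :
    0 ≤ ∫ p : E × E, h p.1 * h p.2 * Real.exp (-v * ‖p.1 - p.2‖ ^ 2) := by
  set u := 2 * v with hu_def
  have hu : 0 < u := by positivity
  set C : ℝ := (π / (2 * u)) ^ (3 / 2 : ℝ) with hC
  have hCpos : 0 < C := by positivity
  have hfac : ∀ p : E × E, C * (h p.1 * h p.2 * Real.exp (-v * ‖p.1 - p.2‖ ^ 2))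
      = ∫ z, (h p.1 * Real.exp (-u * ‖p.1 - z‖ ^ 2)) * (h p.2 * Real.exp (-u * ‖p.2 - z‖ ^ 2)) := by
    intro p
    have h1 := integral_two_gauss p.1 p.2 hu
    have h2 : ∀ z, (h p.1 * Real.exp (-u * ‖p.1 - z‖ ^ 2)) * (h p.2 * Real.exp (-u * ‖p.2 - z‖ ^ 2))
        = h p.1 * h p.2 * (Real.exp (-u * ‖p.1 - z‖ ^ 2) * Real.exp (-u * ‖p.2 - z‖ ^ 2)) := by
      intro z; ring
    simp only [h2]
    rw [integral_const_mul, h1]
    have h3 : -(u / 2) = -v := by rw [hu_def]; ring
    rw [h3]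
    ring
  have hmeas : Measurable (fun q : (E × E) × E =>
      (h q.1.1 * Real.exp (-u * ‖q.1.1 - q.2‖ ^ 2)) *
        (h q.1.2 * Real.exp (-u * ‖q.1.2 - q.2‖ ^ 2))) := by
    have m1 : Measurable (fun q : (E × E) × E => h q.1.1) :=
      hh.1.comp (measurable_fst.comp measurable_fst)
    have m2 : Measurable (fun q : (E × E) × E => h q.1.2) :=
      hh.1.comp (measurable_snd.comp measurable_fst)
    have m3 : Measurable (fun q : (E × E) × E => Real.exp (-u * ‖q.1.1 - q.2‖ ^ 2)) :=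
      (by fun_prop : Continuous _).measurable
    have m4 : Measurable (fun q : (E × E) × E => Real.exp (-u * ‖q.1.2 - q.2‖ ^ 2)) :=
      (by fun_prop : Continuous _).measurable
    exact (m1.mul m3).mul (m2.mul m4)
  have hint : Integrable (fun q : (E × E) × E =>
      (h q.1.1 * Real.exp (-u * ‖q.1.1 - q.2‖ ^ 2)) *
        (h q.1.2 * Real.exp (-u * ‖q.1.2 - q.2‖ ^ 2)))
      ((volume : Measure (E × E)).prod (volume : Measure E)) := by
    rw [integrable_prod_iff hmeas.aestronglyMeasurable]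
    constructor
    · refine Eventually.of_forall fun p => ?_
      have := (integrable_two_gauss p.1 p.2 hu).const_mul (h p.1 * h p.2)
      convert! this using 2
      ring
    · have h5 : (fun p : E × E => ∫ z, ‖(h p.1 * Real.exp (-u * ‖p.1 - z‖ ^ 2)) *
          (h p.2 * Real.exp (-u * ‖p.2 - z‖ ^ 2))‖)
          = fun p : E × E => C * (|h p.1| * |h p.2| * Real.exp (-v * ‖p.1 - p.2‖ ^ 2)) := by
        ext p
        have h1 := integral_two_gauss p.1 p.2 hu
        have h2 : ∀ z, ‖(h p.1 * Real.exp (-u * ‖p.1 - z‖ ^ 2)) *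
            (h p.2 * Real.exp (-u * ‖p.2 - z‖ ^ 2))‖
            = |h p.1| * |h p.2| *
              (Real.exp (-u * ‖p.1 - z‖ ^ 2) * Real.exp (-u * ‖p.2 - z‖ ^ 2)) := by
          intro z
          rw [norm_mul, norm_mul, norm_mul]
          simp only [Real.norm_eq_abs, abs_of_pos (Real.exp_pos _)]
          ring
        simp only [h2]
        rw [integral_const_mul, h1]
        have h3 : -(u / 2) = -v := by rw [hu_def]; ring
        rw [h3]
        ring
      rw [h5]
      exact (integrable_prod_gauss hh.abs hv).const_mul C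
  have hswap := integral_integral_swap (f := fun (p : E × E) (z : E) =>
      (h p.1 * Real.exp (-u * ‖p.1 - z‖ ^ 2)) * (h p.2 * Real.exp (-u * ‖p.2 - z‖ ^ 2))) hint
  have h6 : C * ∫ p : E × E, h p.1 * h p.2 * Real.exp (-v * ‖p.1 - p.2‖ ^ 2)
      = ∫ z : E, (∫ x, h x * Real.exp (-u * ‖x - z‖ ^ 2)) ^ 2 := by
    rw [← integral_const_mul]
    simp only [hfac]
    rw [hswap]
    congr 1
    ext z
    rw [Measure.volume_eq_prod, integral_prod_mul (fun x => h x * Real.exp (-u * ‖x - z‖ ^ 2))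
      (fun x => h x * Real.exp (-u * ‖x - z‖ ^ 2)), sq]
  have h7 : 0 ≤ C * ∫ p : E × E, h p.1 * h p.2 * Real.exp (-v * ‖p.1 - p.2‖ ^ 2) := by
    rw [h6]
    exact integral_nonneg fun z => sq_nonneg _
  exact nonneg_of_mul_nonneg_right h7 hCpos

lemma ae_ne_prod : ∀ᵐ p : E × E, p.1 ≠ p.2 := by
  have hm : MeasurableSet {p : E × E | p.1 = p.2} := measurableSet_eq_fun measurable_fst measurable_snd
  have h0 : (volume : Measure (E × E)) {p : E × E | p.1 = p.2} = 0 := by
    rw [Measure.volume_eq_prod, Measure.measure_prod_null hm]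
    refine Eventually.of_forall fun x => ?_
    have : Prod.mk x ⁻¹' {p : E × E | p.1 = p.2} = {x} := by
      ext y; simp [eq_comm]
    show volume (Prod.mk x ⁻¹' {p : E × E | p.1 = p.2}) = 0
    rw [this]
    simp
  rw [ae_iff]
  simpa using h0

/-- Positivity of the Newtonian energy. -/
theorem energy_nonneg {h : E → ℝ} (hh : Adm h) : 0 ≤ ∫ x, h x * pot h x := by
  -- write the kernel as a superposition of Gaussians
  have hker : ∀ x y : E, x ≠ y → ∫ s in Ioi (0 : ℝ), Real.exp (-‖x - y‖ ^ 2 * s ^ 2)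
      = √π / 2 * ‖x - y‖⁻¹ := by
    intro x y hxy
    have hpos : 0 < ‖x - y‖ := norm_pos_iff.2 (sub_ne_zero.2 hxy)
    have := integral_gaussian_Ioi (‖x - y‖ ^ 2)
    rw [this, Real.sqrt_div Real.pi_pos.le, Real.sqrt_sq hpos.le]
    field_simp
  have hE : ∫ x, h x * pot h x = ∫ p : E × E, h p.1 * (h p.2 * ‖p.1 - p.2‖⁻¹) := by
    rw [Measure.volume_eq_prod, integral_prod _ (integrable_prod_kernel hh hh)]
    congr 1
    ext x
    unfold pot
    rw [← integral_const_mul]
  set μs := (volume : Measure ℝ).restrict (Ioi 0) with hμs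
  have hmeas : Measurable (fun q : (E × E) × ℝ =>
      h q.1.1 * h q.1.2 * Real.exp (-‖q.1.1 - q.1.2‖ ^ 2 * q.2 ^ 2)) := by
    have m1 : Measurable (fun q : (E × E) × ℝ => h q.1.1) :=
      hh.1.comp (measurable_fst.comp measurable_fst)
    have m2 : Measurable (fun q : (E × E) × ℝ => h q.1.2) :=
      hh.1.comp (measurable_snd.comp measurable_fst)
    have m3 : Measurable (fun q : (E × E) × ℝ => Real.exp (-‖q.1.1 - q.1.2‖ ^ 2 * q.2 ^ 2)) :=
      (by fun_prop : Continuous _).measurable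
    exact (m1.mul m2).mul m3
  have hint : Integrable (fun q : (E × E) × ℝ =>
      h q.1.1 * h q.1.2 * Real.exp (-‖q.1.1 - q.1.2‖ ^ 2 * q.2 ^ 2))
      ((volume : Measure (E × E)).prod μs) := by
    rw [integrable_prod_iff hmeas.aestronglyMeasurable]
    constructor
    · filter_upwards [ae_ne_prod] with p hp
      have hpos : 0 < ‖p.1 - p.2‖ ^ 2 := by
        have : 0 < ‖p.1 - p.2‖ := norm_pos_iff.2 (sub_ne_zero.2 hp)
        positivity
      exact ((integrable_exp_neg_mul_sq hpos).integrableOn.integrable).const_mul _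
    · have h5 : (fun p : E × E => ∫ s, ‖h p.1 * h p.2 *
          Real.exp (-‖p.1 - p.2‖ ^ 2 * s ^ 2)‖ ∂μs)
          =ᵐ[volume] fun p : E × E => √π / 2 * (|h p.1| * (|h p.2| * ‖p.1 - p.2‖⁻¹)) := by
        filter_upwards [ae_ne_prod] with p hp
        have h2 : ∀ s : ℝ, ‖h p.1 * h p.2 * Real.exp (-‖p.1 - p.2‖ ^ 2 * s ^ 2)‖
            = |h p.1| * |h p.2| * Real.exp (-‖p.1 - p.2‖ ^ 2 * s ^ 2) := by
          intro s
          rw [norm_mul, norm_mul]
          simp only [Real.norm_eq_abs, abs_of_pos (Real.exp_pos _)]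
        simp only [h2]
        rw [integral_const_mul, hker p.1 p.2 hp]
        ring
      refine (Integrable.congr ?_ h5.symm)
      exact (integrable_prod_kernel hh.abs hh.abs).const_mul _
  have hswap := integral_integral_swap (f := fun (p : E × E) (s : ℝ) =>
      h p.1 * h p.2 * Real.exp (-‖p.1 - p.2‖ ^ 2 * s ^ 2)) hint
  have h6 : √π / 2 * ∫ x, h x * pot h x
      = ∫ s in Ioi (0 : ℝ), ∫ p : E × E, h p.1 * h p.2 * Real.exp (-s ^ 2 * ‖p.1 - p.2‖ ^ 2) := by
    rw [hE, ← integral_const_mul]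
    have h7 : ∫ p : E × E, √π / 2 * (h p.1 * (h p.2 * ‖p.1 - p.2‖⁻¹))
        = ∫ p : E × E, ∫ s, h p.1 * h p.2 * Real.exp (-‖p.1 - p.2‖ ^ 2 * s ^ 2) ∂μs := by
      apply integral_congr_ae
      filter_upwards [ae_ne_prod] with p hp
      rw [integral_const_mul, hker p.1 p.2 hp]
      ring
    rw [h7, hswap]
    congr 1
    ext s
    congr 1
    ext p
    congr 2
    ring
  have h8 : 0 ≤ √π / 2 * ∫ x, h x * pot h x := by
    rw [h6]
    apply setIntegral_nonneg measurableSet_Ioi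
    intro s hs
    have hs' : 0 < s := hs
    exact gauss_pos hh (by positivity)
  have hpi : 0 < √π / 2 := by positivity
  exact nonneg_of_mul_nonneg_right h8 hpi

end Pool.Agent.HollowShell
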