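import Mathlib

set_option autoImplicit false
open Set Metric Filter
open scoped Real Topology

namespace Pool.Agent.HollowShell

/-- A continuous midpoint-convex function on a closed bounded midpoint-convex subset of a real
Hilbert space attains its infimum. -/
theorem exists_min_of_midconvex {H : Type*} [NormedAddCommGroup H] [InnerProductSpace ℝ H]
    [CompleteSpace H] {C : Set H} (hne : C.Nonempty) (hcl : IsClosed C)
    (hmid : ∀ x ∈ C, ∀ y ∈ C, (2⁻¹ : ℝ) • (x + y) ∈ C) {B : ℝ} (hbd : ∀ x ∈ C, ‖x‖ ≤ B)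
    {J : H → ℝ} (hJc : ContinuousOn J C) (hJb : BddBelow (J '' C))
    (hJ : ∀ x ∈ C, ∀ y ∈ C, J ((2⁻¹ : ℝ) • (x + y)) ≤ (J x + J y) / 2) :
    ∃ x ∈ C, ∀ y ∈ C, J x ≤ J y := by
  classical
  set m := sInf (J '' C) with hm
  have hmle : ∀ y ∈ C, m ≤ J y := fun y hy => csInf_le hJb ⟨y, hy, rfl⟩
  set D : ℕ → Set H := fun n => {x ∈ C | J x ≤ m + 1 / ((n : ℝ) + 1)} with hD
  have hDne : ∀ n, (D n).Nonempty := by
    intro n
    have hpos : (0 : ℝ) < 1 / ((n : ℝ) + 1) := by positivity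
    obtain ⟨_, ⟨x, hx, rfl⟩, hx2⟩ := exists_lt_of_csInf_lt (hne.image J)
      (show sInf (J '' C) < m + 1 / ((n : ℝ) + 1) by linarith)
    exact ⟨x, hx, hx2.le⟩
  have hDanti : ∀ n k, n ≤ k → D k ⊆ D n := by
    rintro n k hnk x ⟨hx, hx2⟩
    refine ⟨hx, hx2.trans ?_⟩
    have : (1 : ℝ) / ((k : ℝ) + 1) ≤ 1 / ((n : ℝ) + 1) := by
      apply one_div_le_one_div_of_le (by positivity)
      have : (n : ℝ) ≤ k := by exact_mod_cast hnk
      linarith
    linarith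
  have hDmid : ∀ n, ∀ x ∈ D n, ∀ y ∈ D n, (2⁻¹ : ℝ) • (x + y) ∈ D n := by
    rintro n x ⟨hx, hx2⟩ y ⟨hy, hy2⟩
    refine ⟨hmid x hx y hy, (hJ x hx y hy).trans ?_⟩
    linarith
  set d : ℕ → ℝ := fun n => sInf ((fun x : H => ‖x‖ ^ 2) '' D n) with hd
  have hbelow : ∀ n, BddBelow ((fun x : H => ‖x‖ ^ 2) '' D n) := by
    intro n
    refine ⟨0, ?_⟩
    rintro _ ⟨x, _, rfl⟩
    positivity
  have hdle : ∀ n, ∀ x ∈ D n, d n ≤ ‖x‖ ^ 2 := fun n x hx => csInf_le (hbelow n) ⟨x, hx, rfl⟩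
  have hdmono : Monotone d := by
    intro n k hnk
    exact csInf_le_csInf (hbelow n) ((hDne k).image _) (image_mono (hDanti n k hnk))
  have hB0 : 0 ≤ B := by
    obtain ⟨x, hx⟩ := hne
    exact (norm_nonneg x).trans (hbd x hx)
  have hdbd : BddAbove (range d) := by
    refine ⟨B ^ 2, ?_⟩
    rintro _ ⟨n, rfl⟩
    obtain ⟨x, hx⟩ := hDne n
    exact (hdle n x hx).trans (pow_le_pow_left₀ (norm_nonneg _) (hbd x hx.1) 2)
  have hdlim := tendsto_atTop_ciSup hdmono hdbd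
  set L := ⨆ i, d i with hL
  have hchoose : ∀ n : ℕ, ∃ x ∈ D n, ‖x‖ ^ 2 ≤ d n + 1 / ((n : ℝ) + 1) := by
    intro n
    have hpos : (0 : ℝ) < 1 / ((n : ℝ) + 1) := by positivity
    obtain ⟨_, ⟨x, hx, rfl⟩, hx2⟩ := exists_lt_of_csInf_lt ((hDne n).image (fun x : H => ‖x‖ ^ 2))
      (show sInf ((fun x : H => ‖x‖ ^ 2) '' D n) < d n + 1 / ((n : ℝ) + 1) by
        simp only [hd]; linarith)
    exact ⟨x, hx, hx2.le⟩
  choose x hxD hxn using hchoose
  have hdL : ∀ n, d n ≤ L := fun n => le_ciSup hdbd n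
  have key : ∀ n k, n ≤ k → ‖x n - x k‖ ^ 2 ≤ 2 * (L - d n) + 4 / ((n : ℝ) + 1) := by
    intro n k hnk
    have h1 := hDmid n (x n) (hxD n) (x k) (hDanti n k hnk (hxD k))
    have h2 := hdle n _ h1
    have h3 : ‖(2⁻¹ : ℝ) • (x n + x k)‖ ^ 2 = 4⁻¹ * ‖x n + x k‖ ^ 2 := by
      rw [norm_smul, mul_pow]
      norm_num
    have h4 := parallelogram_law_with_norm ℝ (x n) (x k)
    have h5 := hxn n
    have h6 := hxn k
    have h7 : (1 : ℝ) / ((k : ℝ) + 1) ≤ 1 / ((n : ℝ) + 1) := by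
      apply one_div_le_one_div_of_le (by positivity)
      have : (n : ℝ) ≤ k := by exact_mod_cast hnk
      linarith
    have h8 := hdL k
    have h9 : (4 : ℝ) / ((n : ℝ) + 1) = 4 * (1 / ((n : ℝ) + 1)) := by ring
    rw [h3] at h2
    rw [h9]
    nlinarith
  have hcauchy : CauchySeq x := by
    rw [Metric.cauchySeq_iff']
    intro ε hε
    have hlim : Tendsto (fun n : ℕ => 2 * (L - d n) + 4 * (1 / ((n : ℝ) + 1))) atTop
        (𝓝 (2 * (L - L) + 4 * 0)) :=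
      ((tendsto_const_nhds.sub hdlim).const_mul 2).add
        (tendsto_one_div_add_atTop_nhds_zero_nat.const_mul 4)
    have h0 : 2 * (L - L) + 4 * 0 = (0 : ℝ) := by ring
    rw [h0] at hlim
    obtain ⟨N, hN⟩ := (hlim.eventually (gt_mem_nhds (show (0 : ℝ) < ε ^ 2 by positivity))).exists
    refine ⟨N, fun k hk => ?_⟩
    have h1 := key N k hk
    have h9 : (4 : ℝ) / ((N : ℝ) + 1) = 4 * (1 / ((N : ℝ) + 1)) := by ring
    rw [dist_comm, dist_eq_norm]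
    rw [h9] at h1
    exact lt_of_pow_lt_pow_left₀ 2 hε.le (lt_of_le_of_lt h1 hN)
  obtain ⟨x₀, hx₀⟩ := cauchySeq_tendsto_of_complete hcauchy
  have hx₀C : x₀ ∈ C := hcl.mem_of_tendsto hx₀ (Eventually.of_forall fun n => (hxD n).1)
  refine ⟨x₀, hx₀C, fun y hy => ?_⟩
  have hJx : Tendsto (fun n => J (x n)) atTop (𝓝 (J x₀)) := by
    have h1 : Tendsto x atTop (𝓝[C] x₀) :=
      tendsto_nhdsWithin_iff.2 ⟨hx₀, Eventually.of_forall fun n => (hxD n).1⟩
    exact (hJc x₀ hx₀C).tendsto.comp h1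
  have hle : J x₀ ≤ m := by
    have h2 : Tendsto (fun n : ℕ => m + 1 / ((n : ℝ) + 1)) atTop (𝓝 (m + 0)) :=
      tendsto_const_nhds.add tendsto_one_div_add_atTop_nhds_zero_nat
    rw [add_zero] at h2
    exact le_of_tendsto_of_tendsto' hJx h2 (fun n => (hxD n).2)
  exact hle.trans (hmle y hy)

end Pool.Agent.HollowShell
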