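import Pool.Agent.Lib.MP_7dd24e_an.Pot

set_option autoImplicit false
open MeasureTheory Set Metric Filter
open scoped Real Topology

namespace Pool.Agent.HollowShell

/-- Strong form: at an interior maximum over a ball where the density is nonpositive, the
potential is constant on the ball. -/
lemma const_on_ball {σ : E → ℝ} (hσ : Adm σ) {x : E} {r : ℝ} (hr : 0 < r) {m : ℝ}
    (hm : pot σ x = m) (hle : ∀ z ∈ ball x r, pot σ z ≤ m)
    (hneg : ∀ᵐ y, y ∈ ball x r → σ y ≤ 0) : ∀ z ∈ ball x r, pot σ z = m := by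
  have h1 := submean hσ x hr hneg
  have hcont := pot_continuous hσ
  have hint : IntegrableOn (pot σ) (ball x r) :=
    (hcont.continuousOn.integrableOn_compact (isCompact_closedBall x r)).mono_set
      ball_subset_closedBall
  have hvol := volume_real_ball x hr
  have hfin : volume (ball x r) ≠ ⊤ := measure_ball_lt_top.ne
  have hc : IntegrableOn (fun _ : E => m) (ball x r) := integrableOn_const hfin
  have h2 : ∫ z in ball x r, (m - pot σ z) ≤ 0 := by
    rw [integral_sub hc hint, setIntegral_const, hvol, smul_eq_mul]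
    rw [hm] at h1
    linarith
  have h3 : 0 ≤ᵐ[volume.restrict (ball x r)] fun z => m - pot σ z := by
    filter_upwards [ae_restrict_mem measurableSet_ball] with z hz
    exact sub_nonneg.2 (hle z hz)
  have h4 : ∫ z in ball x r, (m - pot σ z) = 0 := le_antisymm h2 (integral_nonneg_of_ae h3)
  rw [integral_eq_zero_iff_of_nonneg_ae h3 (hc.sub hint)] at h4
  have h5 : EqOn (fun z => m - pot σ z) 0 (ball x r) :=
    Measure.eqOn_open_of_ae_eq h4 isOpen_ball
      (continuous_const.sub hcont).continuousOn continuousOn_const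
  intro z hz
  have := h5 hz
  simp only [Pi.zero_apply] at this
  linarith

/-- Maximum principle for potentials. -/
theorem max_principle {σ : E → ℝ} (hσ : Adm σ) {a : ℝ} (ha : 0 ≤ a) {W : Set E}
    (hWo : IsOpen W) (hW : ∀ x ∈ W, a < pot σ x)
    (hbd : ∀ x ∈ closure W, x ∉ W → pot σ x ≤ a)
    (hneg : ∀ᵐ y, y ∈ W → σ y ≤ 0) : W = ∅ := by
  by_contra hne
  obtain ⟨x₁, hx₁⟩ := nonempty_iff_ne_empty.2 hne
  have hcont := pot_continuous hσ
  set m₁ := pot σ x₁ with hm₁
  have hm₁pos : 0 < m₁ := lt_of_le_of_lt ha (hW x₁ hx₁)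
  obtain ⟨R, hR⟩ := pot_small_at_infinity hσ hm₁pos
  set A := closure W ∩ {x | m₁ ≤ pot σ x} with hA
  have hAclosed : IsClosed A := isClosed_closure.inter (isClosed_le continuous_const hcont)
  have hAsub : A ⊆ closedBall 0 R := by
    rintro x ⟨_, hx⟩
    by_contra hx'
    have := (abs_lt.1 (hR x hx')).2
    have hx2 : m₁ ≤ pot σ x := hx
    linarith
  have hAcomp : IsCompact A := (isCompact_closedBall 0 R).of_isClosed_subset hAclosed hAsub
  have hAne : A.Nonempty := ⟨x₁, subset_closure hx₁, le_refl m₁⟩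
  obtain ⟨x₂, hx₂A, hx₂max⟩ := hAcomp.exists_isMaxOn hAne hcont.continuousOn
  set m := pot σ x₂ with hm
  have hm_ge : m₁ ≤ m := hx₂A.2
  have hmax : ∀ x ∈ closure W, pot σ x ≤ m := by
    intro x hx
    by_cases h : m₁ ≤ pot σ x
    · exact hx₂max ⟨hx, h⟩
    · push Not at h; linarith
  set B := A ∩ {x | pot σ x = m} with hB
  have hBcomp : IsCompact B := hAcomp.inter_right (isClosed_eq hcont continuous_const)
  have hBne : B.Nonempty := ⟨x₂, hx₂A, rfl⟩
  obtain ⟨x₃, hx₃B, hx₃max⟩ := hBcomp.exists_isMaxOn hBne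
    (f := fun x : E => x 0) (by fun_prop)
  have hx₃W : x₃ ∈ W := by
    by_contra h
    have h1 := hbd x₃ hx₃B.1.1 h
    have h2 : pot σ x₃ = m := hx₃B.2
    have h3 := hW x₁ hx₁
    linarith
  obtain ⟨r, hr, hrW⟩ := Metric.isOpen_iff.1 hWo x₃ hx₃W
  have h6 := const_on_ball hσ hr hx₃B.2 (fun z hz => hmax z (subset_closure (hrW hz)))
    (by filter_upwards [hneg] with y hy hyb using hy (hrW hyb))
  set z : E := x₃ + EuclideanSpace.single 0 (r / 2) with hz
  have hzb : z ∈ ball x₃ r := by
    rw [mem_ball, dist_eq_norm, hz, add_sub_cancel_left, EuclideanSpace.norm_single,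
      Real.norm_eq_abs, abs_of_pos (by linarith)]
    linarith
  have hzB : z ∈ B := by
    have h7 := h6 z hzb
    refine ⟨⟨subset_closure (hrW hzb), ?_⟩, h7⟩
    show m₁ ≤ pot σ z
    rw [h7]; exact hm_ge
  have h8 : z 0 ≤ x₃ 0 := hx₃max hzB
  rw [hz] at h8
  simp at h8
  linarith

end Pool.Agent.HollowShell
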