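import Pool.Agent.Lib.MP_7dd24e_an.Energy
import Pool.Agent.Lib.MP_7dd24e_an.MaxPrinciple
import Pool.Agent.Lib.MP_7dd24e_an.Hilbert

set_option autoImplicit false
open MeasureTheory Set Metric Filter
open scoped Real Topology

namespace Pool.Agent.HollowShell

/-- Energy functional. -/
noncomputable def Jf (c : ℝ) (f : E → ℝ) : ℝ := 2⁻¹ * (∫ x, f x * pot f x) - c * ∫ x, f x

lemma Jf_expand (c : ℝ) {f g : E → ℝ} (hf : Adm f) (hg : Adm g) (t : ℝ) :
    Jf c (fun x => f x + t * g x) = Jf c f + t * ((∫ x, g x * pot f x) - c * ∫ x, g x)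
      + t ^ 2 / 2 * ∫ x, g x * pot g x := by
  have hp : ∀ x, pot (fun y => f y + t * g y) x = pot f x + t * pot g x := by
    intro x
    rw [pot_add hf (hg.const_mul t), pot_const_mul]
  have i1 : Integrable (fun x => f x * pot f x) := (hf.mul_continuous (pot_continuous hf)).integrable
  have i2 : Integrable (fun x => f x * pot g x) := (hf.mul_continuous (pot_continuous hg)).integrable
  have i3 : Integrable (fun x => g x * pot f x) := (hg.mul_continuous (pot_continuous hf)).integrable
  have i4 : Integrable (fun x => g x * pot g x) := (hg.mul_continuous (pot_continuous hg)).integrable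
  have hs := pot_symm hf hg
  unfold Jf
  simp only [hp]
  have e1 : ∀ x, (f x + t * g x) * (pot f x + t * pot g x)
      = (f x * pot f x + t * (f x * pot g x)) + (t * (g x * pot f x) + t ^ 2 * (g x * pot g x)) := by
    intro x; ring
  simp only [e1]
  have j1 : Integrable (fun x => f x * pot f x + t * (f x * pot g x)) := i1.add (i2.const_mul t)
  have j2 : Integrable (fun x => t * (g x * pot f x) + t ^ 2 * (g x * pot g x)) :=
    (i3.const_mul t).add (i4.const_mul (t ^ 2))
  rw [integral_add j1 j2,
    integral_add i1 (i2.const_mul t), integral_add (i3.const_mul t) (i4.const_mul (t ^ 2)),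
    integral_const_mul, integral_const_mul, integral_const_mul,
    integral_add hf.integrable (hg.integrable.const_mul t), integral_const_mul, ← hs]
  ring

/-- The class of densities between `0` and the indicator of `U`. -/
def Cl (U : Set E) (f : E → ℝ) : Prop :=
  Measurable f ∧ (∀ x, 0 ≤ f x) ∧ ∀ x, f x ≤ U.indicator (fun _ => (1 : ℝ)) x

lemma indicator_one_le (U : Set E) (x : E) : U.indicator (fun _ => (1 : ℝ)) x ≤ 1 := by
  by_cases h : x ∈ U <;> simp [h]

lemma indicator_one_nonneg (U : Set E) (x : E) : 0 ≤ U.indicator (fun _ => (1 : ℝ)) x := by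
  by_cases h : x ∈ U <;> simp [h]

section
variable {U : Set E} (hUm : MeasurableSet U) (hU : U ⊆ ball 0 1)
include hU

lemma cl_adm {f : E → ℝ} (hf : Cl U f) : Adm f := by
  refine ⟨hf.1, ⟨1, fun x => ?_⟩, ⟨1, fun x hx => ?_⟩⟩
  · rw [abs_of_nonneg (hf.2.1 x)]
    exact (hf.2.2 x).trans (indicator_one_le U x)
  · have hx2 : x ∉ U := fun h => hx (ball_subset_closedBall (hU h))
    have h1 := hf.2.2 x
    rw [indicator_of_notMem hx2] at h1
    exact le_antisymm h1 (hf.2.1 x)

omit hU in
lemma cl_pot_nonneg {f : E → ℝ} (hf : Cl U f) (x : E) : 0 ≤ pot f x := by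
  unfold pot
  exact integral_nonneg fun y => mul_nonneg (hf.2.1 y) (by positivity)

lemma cl_pot_le_bp {f : E → ℝ} (hf : Cl U f) (x : E) : pot f x ≤ bp 1 ‖x‖ := by
  have h1 := pot_indicator_ball 0 x 1 one_pos
  rw [zero_sub, norm_neg] at h1
  rw [← h1]
  refine pot_mono (cl_adm hU hf) (adm_indicator_ball 0 1) (Eventually.of_forall fun y => ?_) x
  refine (hf.2.2 y).trans ?_
  exact indicator_le_indicator_of_subset hU (fun _ => zero_le_one) y

lemma cl_pot_le {f : E → ℝ} (hf : Cl U f) (x : E) : pot f x ≤ 2 * π := by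
  have := (cl_pot_le_bp hU hf x).trans (bp_le 1 ‖x‖ one_pos)
  simpa using this

omit hU in
lemma Jf_congr {c : ℝ} {f g : E → ℝ} (h : ∀ᵐ y, f y = g y) : Jf c f = Jf c g := by
  unfold Jf
  congr 2
  · apply integral_congr_ae
    filter_upwards [h] with y hy
    rw [hy, pot_congr_ae h]
  · exact integral_congr_ae h

lemma Jf_mid {c : ℝ} {f g : E → ℝ} (hf : Cl U f) (hg : Cl U g) :
    Jf c (fun x => 2⁻¹ * (f x + g x)) ≤ (Jf c f + Jf c g) / 2 := by
  have af := cl_adm hU hf
  have ag := cl_adm hU hg
  have h1 := Jf_expand c af (ag.sub af) 2⁻¹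
  have h2 := Jf_expand c af (ag.sub af) 1
  have h3 := energy_nonneg (ag.sub af)
  have e1 : (fun x => f x + 2⁻¹ * (g x - f x)) = fun x => 2⁻¹ * (f x + g x) := by
    ext x; ring
  have e2 : (fun x => f x + 1 * (g x - f x)) = g := by
    ext x; ring
  rw [e1] at h1
  rw [e2] at h2
  rw [h1]
  nlinarith [h2, h3]

lemma Jf_lip {c : ℝ} {f g : E → ℝ} (hf : Cl U f) (hg : Cl U g) :
    |Jf c g - Jf c f| ≤ (2 * π + |c|) * ∫ x, |g x - f x| := by
  have af := cl_adm hU hf
  have ag := cl_adm hU hg
  have ad := ag.sub af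
  have h2 := Jf_expand c af ad 1
  have e2 : (fun x => f x + 1 * (g x - f x)) = g := by
    ext x; ring
  rw [e2] at h2
  have h3 : Jf c g - Jf c f = ∫ x, (g x - f x) * (2⁻¹ * pot f x + 2⁻¹ * pot g x - c) := by
    have i1 : Integrable (fun x => (g x - f x) * pot f x) :=
      (ad.mul_continuous (pot_continuous af)).integrable
    have i2 : Integrable (fun x => (g x - f x) * pot (fun y => g y - f y) x) :=
      (ad.mul_continuous (pot_continuous ad)).integrable
    rw [h2]
    have e3 : ∀ x, (g x - f x) * (2⁻¹ * pot f x + 2⁻¹ * pot g x - c)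
        = ((g x - f x) * pot f x - c * (g x - f x)) +
          2⁻¹ * ((g x - f x) * pot (fun y => g y - f y) x) := by
      intro x
      rw [pot_sub ag af]
      ring
    simp only [e3]
    have j1 : Integrable (fun x => (g x - f x) * pot f x - c * (g x - f x)) :=
      i1.sub (ad.integrable.const_mul c)
    have j2 : Integrable (fun x => 2⁻¹ * ((g x - f x) * pot (fun y => g y - f y) x)) :=
      i2.const_mul _
    rw [integral_add j1 j2, integral_sub i1 (ad.integrable.const_mul c), integral_const_mul, integral_const_mul]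
    ring
  rw [h3, ← Real.norm_eq_abs, ← integral_const_mul]
  refine norm_integral_le_of_norm_le (ad.integrable.abs.const_mul _) ?_
  refine Eventually.of_forall fun x => ?_
  rw [norm_mul, Real.norm_eq_abs, Real.norm_eq_abs, mul_comm]
  refine mul_le_mul_of_nonneg_right ?_ (abs_nonneg _)
  have b1 := cl_pot_nonneg hf x
  have b2 := cl_pot_nonneg hg x
  have b3 := cl_pot_le hU hf x
  have b4 := cl_pot_le hU hg x
  have b5 := neg_abs_le c
  have b6 := le_abs_self c
  rw [abs_le]
  constructor <;> linarith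

end

end Pool.Agent.HollowShell
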