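import Pool.Agent.Lib.MP_7dd24e_an.Exist

set_option autoImplicit false
open MeasureTheory Set Metric Filter
open scoped Real Topology

namespace Pool.Agent.HollowShell

/-- Truncation of an `L²` class to the constraint set. -/
noncomputable def rep (U : Set E) (F : Lp ℝ 2 (volume : Measure E)) : E → ℝ :=
  fun x => max 0 (min (F x) (U.indicator (fun _ => (1 : ℝ)) x))

section
variable {U : Set E} (hUm : MeasurableSet U) (hU : U ⊆ ball 0 1)

include hUm in
lemma rep_cl (F : Lp ℝ 2 (volume : Measure E)) : Cl U (rep U F) := by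
  refine ⟨?_, fun x => le_max_left _ _, fun x => ?_⟩
  · exact measurable_const.max ((Lp.stronglyMeasurable F).measurable.min
      (measurable_const.indicator hUm))
  · exact max_le (indicator_one_nonneg U x) (min_le_right _ _)

include hU in
lemma vol_ne_top : volume U ≠ ⊤ :=
  ((measure_mono hU).trans_lt measure_ball_lt_top).ne

/-- The indicator of `U` as an `L²` class. -/
noncomputable def oneU : Lp ℝ 2 (volume : Measure E) :=
  indicatorConstLp 2 hUm (vol_ne_top hU) (1 : ℝ)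

lemma oneU_ae : (oneU hUm hU : E → ℝ) =ᵐ[volume] U.indicator (fun _ => (1 : ℝ)) :=
  indicatorConstLp_coeFn

lemma rep_ae {F : Lp ℝ 2 (volume : Measure E)} (hF : F ∈ Icc 0 (oneU hUm hU)) :
    ∀ᵐ x, F x = rep U F x := by
  have h1 := (Lp.coeFn_nonneg F).2 hF.1
  have h2 := (Lp.coeFn_le F (oneU hUm hU)).2 hF.2
  filter_upwards [h1, h2, oneU_ae hUm hU] with x h1 h2 h3
  rw [h3] at h2
  have h1' : (0 : ℝ) ≤ F x := h1
  unfold rep
  rw [min_eq_left h2, max_eq_right h1']

include hUm hU in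
theorem exists_minimizer (c : ℝ) :
    ∃ ρ, Cl U ρ ∧ ∀ g, Cl U g → Jf c ρ ≤ Jf c g := by
  set C : Set (Lp ℝ 2 (volume : Measure E)) := Icc 0 (oneU hUm hU) with hC
  have hone : (0 : Lp ℝ 2 (volume : Measure E)) ≤ oneU hUm hU := by
    rw [← Lp.coeFn_nonneg]
    filter_upwards [oneU_ae hUm hU] with x hx
    rw [hx]
    exact indicator_one_nonneg U x
  have hne : C.Nonempty := ⟨0, le_refl _, hone⟩
  have hcl : IsClosed C := isClosed_Icc
  have hmid : ∀ F ∈ C, ∀ G ∈ C, (2⁻¹ : ℝ) • (F + G) ∈ C := by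
    rintro F ⟨hF0, hF1⟩ G ⟨hG0, hG1⟩
    rw [← Lp.coeFn_nonneg] at hF0 hG0
    rw [← Lp.coeFn_le] at hF1 hG1
    constructor
    · rw [← Lp.coeFn_nonneg]
      filter_upwards [hF0, hG0, Lp.coeFn_smul (2⁻¹ : ℝ) (F + G), Lp.coeFn_add F G]
        with x h1 h2 h3 h4
      rw [h3, Pi.smul_apply, h4, Pi.add_apply, smul_eq_mul]
      simp only [Pi.zero_apply] at h1 h2 ⊢
      linarith
    · rw [← Lp.coeFn_le]
      filter_upwards [hF1, hG1, Lp.coeFn_smul (2⁻¹ : ℝ) (F + G), Lp.coeFn_add F G]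
        with x h1 h2 h3 h4
      rw [h3, Pi.smul_apply, h4, Pi.add_apply, smul_eq_mul]
      linarith
  have hbd : ∀ F ∈ C, ‖F‖ ≤ ‖oneU hUm hU‖ := by
    rintro F ⟨hF0, hF1⟩
    apply norm_le_norm_of_abs_le_abs
    rw [abs_of_nonneg hF0, abs_of_nonneg hone]
    exact hF1
  have hrepmid : ∀ F ∈ C, ∀ G ∈ C,
      ∀ᵐ x, rep U ((2⁻¹ : ℝ) • (F + G)) x = 2⁻¹ * (rep U F x + rep U G x) := by
    intro F hF G hG
    filter_upwards [rep_ae hUm hU hF, rep_ae hUm hU hG, rep_ae hUm hU (hmid F hF G hG),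
      Lp.coeFn_smul (2⁻¹ : ℝ) (F + G), Lp.coeFn_add F G] with x h1 h2 h3 h4 h5
    rw [← h1, ← h2, ← h3, h4, Pi.smul_apply, h5, Pi.add_apply, smul_eq_mul]
  have hlip : ∀ F ∈ C, ∀ G ∈ C, |Jf c (rep U G) - Jf c (rep U F)|
      ≤ (2 * π + |c|) * (‖oneU hUm hU‖ * ‖G - F‖) := by
    intro F hF G hG
    refine (Jf_lip hU (rep_cl hUm F) (rep_cl hUm G)).trans ?_
    have hpos : 0 ≤ 2 * π + |c| := by positivity
    refine mul_le_mul_of_nonneg_left ?_ hpos
    have h1 : ∫ x, |rep U G x - rep U F x| = inner ℝ (oneU hUm hU) |G - F| := by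
      rw [L2.inner_def]
      apply integral_congr_ae
      filter_upwards [rep_ae hUm hU hF, rep_ae hUm hU hG, oneU_ae hUm hU, Lp.coeFn_abs (G - F),
        Lp.coeFn_sub G F] with x h1 h2 h3 h4 h5
      rw [h3, h4, h5, Pi.sub_apply, h1, h2]
      by_cases hx : x ∈ U
      · simp [hx]
      · have z1 : rep U F x = 0 := by
          refine le_antisymm ?_ ((rep_cl hUm F).2.1 x)
          have := (rep_cl hUm F).2.2 x
          rwa [indicator_of_notMem hx] at this
        have z2 : rep U G x = 0 := by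
          refine le_antisymm ?_ ((rep_cl hUm G).2.1 x)
          have := (rep_cl hUm G).2.2 x
          rwa [indicator_of_notMem hx] at this
        rw [z1, z2]
        simp
    rw [h1]
    refine (real_inner_le_norm _ _).trans ?_
    rw [norm_abs_eq_norm]
  have hK : ∀ F ∈ C, ∀ G ∈ C, |Jf c (rep U G) - Jf c (rep U F)|
      ≤ ((2 * π + |c|) * ‖oneU hUm hU‖) * ‖G - F‖ := by
    intro F hF G hG
    have := hlip F hF G hG
    rwa [← mul_assoc] at this
  have hJc : ContinuousOn (fun F => Jf c (rep U F)) C := by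
    set K := (2 * π + |c|) * ‖oneU hUm hU‖ with hKdef
    have hK0 : 0 ≤ K := by positivity
    have hL : LipschitzOnWith K.toNNReal (fun F => Jf c (rep U F)) C := by
      apply LipschitzOnWith.of_dist_le_mul
      intro F hF G hG
      rw [Real.dist_eq, dist_eq_norm, Real.coe_toNNReal K hK0]
      exact hK G hG F hF
    exact hL.continuousOn
  have hJb : BddBelow ((fun F => Jf c (rep U F)) '' C) := by
    refine ⟨Jf c (rep U (0 : Lp ℝ 2 (volume : Measure E)))
      - ((2 * π + |c|) * ‖oneU hUm hU‖) * ‖oneU hUm hU‖, ?_⟩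
    rintro _ ⟨F, hF, rfl⟩
    have h0 : (0 : Lp ℝ 2 (volume : Measure E)) ∈ C := ⟨le_refl _, hone⟩
    have h1 := hK 0 h0 F hF
    rw [sub_zero] at h1
    have h2 := hbd F hF
    have h3 : ((2 * π + |c|) * ‖oneU hUm hU‖) * ‖F‖
        ≤ ((2 * π + |c|) * ‖oneU hUm hU‖) * ‖oneU hUm hU‖ :=
      mul_le_mul_of_nonneg_left h2 (by positivity)
    have h4 := (abs_le.1 h1).1
    show _ ≤ Jf c (rep U F)
    linarith
  have hJ : ∀ F ∈ C, ∀ G ∈ C, Jf c (rep U ((2⁻¹ : ℝ) • (F + G)))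
      ≤ (Jf c (rep U F) + Jf c (rep U G)) / 2 := by
    intro F hF G hG
    rw [Jf_congr (hrepmid F hF G hG)]
    exact Jf_mid hU (rep_cl hUm F) (rep_cl hUm G)
  obtain ⟨F, hF, hmin⟩ := exists_min_of_midconvex hne hcl hmid hbd hJc hJb hJ
  refine ⟨rep U F, rep_cl hUm F, fun g hg => ?_⟩
  have hgL : MemLp g 2 (volume : Measure E) := by
    have h1 : MemLp (U.indicator (fun _ => (1 : ℝ))) 2 (volume : Measure E) :=
      memLp_indicator_const 2 hUm 1 (Or.inr (vol_ne_top hU))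
    refine h1.mono hg.1.aestronglyMeasurable (Eventually.of_forall fun x => ?_)
    rw [Real.norm_eq_abs, Real.norm_eq_abs, abs_of_nonneg (hg.2.1 x),
      abs_of_nonneg (indicator_one_nonneg U x)]
    exact hg.2.2 x
  have hgC : hgL.toLp g ∈ C := by
    constructor
    · rw [← Lp.coeFn_nonneg]
      filter_upwards [hgL.coeFn_toLp] with x hx
      rw [hx]
      exact hg.2.1 x
    · rw [← Lp.coeFn_le]
      filter_upwards [hgL.coeFn_toLp, oneU_ae hUm hU] with x hx hx2
      rw [hx, hx2]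
      exact hg.2.2 x
  have h1 := hmin _ hgC
  have h2 : ∀ᵐ x, rep U (hgL.toLp g) x = g x := by
    filter_upwards [rep_ae hUm hU hgC, hgL.coeFn_toLp] with x hx hx2
    rw [← hx, hx2]
  have h3 : Jf c (rep U (hgL.toLp g)) = Jf c g := Jf_congr h2
  calc Jf c (rep U F) ≤ Jf c (rep U (hgL.toLp g)) := h1
    _ = Jf c g := h3

end

end Pool.Agent.HollowShell
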