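import Pool.Agent.Lib.MP_7dd24e_an.Slice

set_option autoImplicit false
open MeasureTheory Set Metric Filter
open scoped Real Topology Pointwise

namespace Pool.Agent.HollowShell

/-- The boundary of a bounded open set which absorbs its closure under contractions is
homeomorphic to the sphere. -/
theorem star_homeo {T : Set E} (hT : IsOpen T) (h0 : (0 : E) ∈ T) (hb : Bornology.IsBounded T)
    (hstar : ∀ x ∈ closure T, ∀ t : ℝ, 0 ≤ t → t < 1 → t • x ∈ T) :
    Nonempty (frontier T ≃ₜ sphere (0 : E) 1) := by
  have hfr : frontier T = closure T \ T := hT.frontier_eq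
  have hne : ∀ x ∈ frontier T, x ≠ 0 := by
    rintro x hx rfl
    rw [hfr] at hx
    exact hx.2 h0
  have hcomp : IsCompact (frontier T) :=
    Metric.isCompact_of_isClosed_isBounded isClosed_frontier (hb.closure.subset frontier_subset_closure)
  have : CompactSpace (frontier T) := isCompact_iff_compactSpace.1 hcomp
  let f : frontier T → sphere (0 : E) 1 := fun x =>
    ⟨‖(x : E)‖⁻¹ • (x : E), by
      have := hne x x.2
      rw [mem_sphere_zero_iff_norm, norm_smul, norm_inv, norm_norm,
        inv_mul_cancel₀ (norm_ne_zero_iff.2 this)]⟩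
  have hf : Continuous f := by
    refine Continuous.subtype_mk ?_ _
    have h1 : Continuous fun x : frontier T => ‖(x : E)‖ := by fun_prop
    exact (h1.inv₀ (fun x => norm_ne_zero_iff.2 (hne x x.2))).smul continuous_subtype_val
  have hinj : Function.Injective f := by
    -- if two boundary points lie on one ray they agree
    have key : ∀ x y : frontier T, f x = f y → ‖(x : E)‖ < ‖(y : E)‖ → False := by
      intro x y hxy hlt
      have hx0 := norm_ne_zero_iff.2 (hne x x.2)
      have hy0 := norm_ne_zero_iff.2 (hne y y.2)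
      have hypos : 0 < ‖(y : E)‖ := norm_pos_iff.2 (hne y y.2)
      have h1 : ‖(x : E)‖⁻¹ • (x : E) = ‖(y : E)‖⁻¹ • (y : E) := congrArg Subtype.val hxy
      have h2 : (x : E) = (‖(x : E)‖ / ‖(y : E)‖) • (y : E) := by
        rw [div_eq_mul_inv, mul_smul, ← h1, smul_smul, mul_inv_cancel₀ hx0, one_smul]
      have h3 : (x : E) ∈ T := by
        rw [h2]
        refine hstar y (frontier_subset_closure y.2) _ (by positivity) ?_
        rw [div_lt_one hypos]; exact hlt
      have h4 : (x : E) ∈ closure T \ T := hfr ▸ x.2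
      exact h4.2 h3
    intro x y hxy
    rcases lt_trichotomy ‖(x : E)‖ ‖(y : E)‖ with h | h | h
    · exact (key x y hxy h).elim
    · have hx0 := norm_ne_zero_iff.2 (hne x x.2)
      have h1 : ‖(x : E)‖⁻¹ • (x : E) = ‖(y : E)‖⁻¹ • (y : E) := congrArg Subtype.val hxy
      rw [← h] at h1
      have h2 := congrArg (fun v => ‖(x : E)‖ • v) h1
      simp only [smul_smul, mul_inv_cancel₀ hx0, one_smul] at h2
      exact Subtype.ext h2
    · exact (key y x hxy.symm h).elim
  have hsurj : Function.Surjective f := by
    rintro ⟨w, hw⟩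
    have hw1 : ‖w‖ = 1 := mem_sphere_zero_iff_norm.1 hw
    obtain ⟨B, hB⟩ := hb.closure.exists_norm_le
    set S : Set ℝ := {r | 0 ≤ r ∧ r • w ∈ closure T} with hS
    have hSne : S.Nonempty := ⟨0, le_refl _, by simpa using subset_closure h0⟩
    have hSb : BddAbove S := by
      refine ⟨B, ?_⟩
      rintro r ⟨hr, hrw⟩
      have := hB _ hrw
      rw [norm_smul, hw1, mul_one, Real.norm_eq_abs, abs_of_nonneg hr] at this
      exact this
    have hScl : IsClosed S := by
      have : S = Ici 0 ∩ (fun r : ℝ => r • w) ⁻¹' closure T := rfl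
      rw [this]
      exact isClosed_Ici.inter (isClosed_closure.preimage (by fun_prop))
    set r := sSup S with hr
    have hrS : r ∈ S := hScl.csSup_mem hSne hSb
    have hrT : r • w ∉ T := by
      intro h
      have hopen : IsOpen ((fun s : ℝ => s • w) ⁻¹' T) := hT.preimage (by fun_prop)
      obtain ⟨δ, hδ, hδ2⟩ := Metric.isOpen_iff.1 hopen r h
      have h1 : r + δ / 2 ∈ S := by
        refine ⟨by linarith [hrS.1], subset_closure (hδ2 ?_)⟩
        rw [mem_ball, Real.dist_eq, add_sub_cancel_left, abs_of_pos (by linarith)]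
        linarith
      have h2 := le_csSup hSb h1
      linarith
    have hrfr : r • w ∈ frontier T := by
      rw [hfr]; exact ⟨hrS.2, hrT⟩
    have hrpos : 0 < r := by
      rcases hrS.1.lt_or_eq with h | h
      · exact h
      · exfalso
        apply hrT
        rw [← h, zero_smul]
        exact h0
    refine ⟨⟨r • w, hrfr⟩, ?_⟩
    apply Subtype.ext
    show ‖r • w‖⁻¹ • r • w = w
    rw [norm_smul, hw1, mul_one, Real.norm_eq_abs, abs_of_pos hrpos, smul_smul,
      inv_mul_cancel₀ hrpos.ne', one_smul]
  exact ⟨Continuous.homeoOfEquivCompactToT2 (f := Equiv.ofBijective f ⟨hinj, hsurj⟩) hf⟩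

end Pool.Agent.HollowShell
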