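import Pool.Agent.Lib.MP_7dd24e_an.Moving
import Pool.Agent.Lib.MP_7dd24e_an.Star

set_option autoImplicit false
open MeasureTheory Set Metric Filter
open scoped Real Topology Pointwise

namespace Pool.Agent.HollowShell

/-- The outer solid: a ball with two opposite caps cut off. -/
def U0 : Set E := {x | ‖x‖ < 1 ∧ |x 0| < 9 / 10}

lemma U0_open : IsOpen U0 := by
  have : U0 = {x : E | ‖x‖ < 1} ∩ {x : E | |x 0| < 9 / 10} := rfl
  rw [this]
  exact (isOpen_lt continuous_norm continuous_const).inter
    (isOpen_lt (by fun_prop) continuous_const)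

lemma U0_sub : U0 ⊆ ball 0 1 := fun x hx => mem_ball_zero_iff.2 hx.1

lemma U0_zero : (0 : E) ∈ U0 := by
  refine ⟨?_, ?_⟩ <;> simp

lemma abs_coord_le (x : E) (i : Fin 3) : |x i| ≤ ‖x‖ := by
  have := PiLp.norm_apply_le x i
  simpa using this

lemma U0_star : ∀ x ∈ closure U0, ∀ t : ℝ, 0 ≤ t → t < 1 → t • x ∈ U0 := by
  intro x hx t ht ht1
  have h1 : closure U0 ⊆ {x : E | ‖x‖ ≤ 1} ∩ {x : E | |x 0| ≤ 9 / 10} := by
    apply closure_minimal
    · rintro y ⟨hy1, hy2⟩
      exact ⟨hy1.le, hy2.le⟩
    · exact (isClosed_le continuous_norm continuous_const).inter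
        (isClosed_le (by fun_prop) continuous_const)
  obtain ⟨h2, h3⟩ := h1 hx
  have h2' : ‖x‖ ≤ 1 := h2
  have h3' : |x 0| ≤ 9 / 10 := h3
  constructor
  · rw [norm_smul, Real.norm_eq_abs, abs_of_nonneg ht]
    nlinarith [norm_nonneg x]
  · rw [PiLp.smul_apply, smul_eq_mul, abs_mul, abs_of_nonneg ht]
    nlinarith [abs_nonneg (x 0)]

lemma U0_connected : IsConnected U0 := by
  have h : StarConvex ℝ (0 : E) U0 := by
    rw [starConvex_zero_iff]
    intro x hx a ha ha1
    rcases ha1.lt_or_eq with h | h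
    · exact U0_star x (subset_closure hx) a ha h
    · rw [h, one_smul]; exact hx
  exact (h.isPathConnected U0_zero).isConnected

lemma norm_le_of_abs_le {x y : E} (h : ∀ j, |y j| ≤ |x j|) : ‖y‖ ≤ ‖x‖ := by
  rw [EuclideanSpace.norm_eq, EuclideanSpace.norm_eq]
  apply Real.sqrt_le_sqrt
  apply Finset.sum_le_sum
  intro j _
  rw [Real.norm_eq_abs, Real.norm_eq_abs]
  exact pow_le_pow_left₀ (abs_nonneg _) (h j) 2

lemma U0_uncond : ∀ x ∈ U0, ∀ y : E, (∀ j, |y j| ≤ |x j|) → y ∈ U0 := by
  rintro x ⟨h1, h2⟩ y hy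
  exact ⟨lt_of_le_of_lt (norm_le_of_abs_le hy) h1, lt_of_le_of_lt (hy 0) h2⟩

lemma coord_null (i : Fin 3) : volume {x : E | x i = 0} = 0 := by
  have h := Measure.addHaar_submodule (volume : Measure E)
    (LinearMap.ker (EuclideanSpace.proj i : E →L[ℝ] ℝ).toLinearMap) (by
      intro htop
      rw [LinearMap.ker_eq_top] at htop
      have h2 := LinearMap.congr_fun htop (EuclideanSpace.single i (1 : ℝ))
      simp at h2)
  have h3 : ((LinearMap.ker (EuclideanSpace.proj i : E →L[ℝ] ℝ).toLinearMap : Submodule ℝ E) : Set E)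
      = {x : E | x i = 0} := by
    ext x; simp
  rwa [h3] at h

lemma ae_coord_ne : ∀ᵐ x : E, ∀ i : Fin 3, x i ≠ 0 := by
  rw [ae_all_iff]
  intro i
  rw [ae_iff]
  simpa using coord_null i

/-- The counterexample: the outer solid `U0` has a cavity `T` in which the potential of the
shell is constant. -/
theorem shell_exists : ∃ T : Set E, IsOpen T ∧ (0 : E) ∈ T ∧ closure T ⊆ U0 ∧
    (∀ x ∈ closure T, ∀ t : ℝ, 0 ≤ t → t < 1 → t • x ∈ T) ∧
    ∃ c : ℝ, ∀ P ∈ T, ∫ M in U0 \ closure T, (dist P M)⁻¹ = c := by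
  set c : ℝ := 3 / 2 * π with hc
  have hcpos : 0 < c := by positivity
  obtain ⟨ρ, hρ, hle, hone⟩ := exists_obstacle U0_open.measurableSet U0_sub hcpos
  have aρ := cl_adm U0_sub hρ
  have hcont := pot_continuous aρ
  have hmono := mono_all U0_sub U0_uncond hρ hle hone
  set K : Set E := {x | pot ρ x = c} with hK
  have hKcl : IsClosed K := isClosed_eq hcont continuous_const
  have hKU : K ⊆ U0 := by
    intro x hx
    by_contra hxU
    have hx' : pot ρ x = c := hx
    have h1 := cl_pot_le_bp U0_sub hρ x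
    have h2 : 9 / 10 ≤ ‖x‖ := by
      by_contra h3
      push Not at h3
      exact hxU ⟨by linarith, lt_of_le_of_lt (abs_coord_le x 0) h3⟩
    have h3 : bp 1 ‖x‖ < c := by
      unfold bp
      split_ifs with h
      · rw [div_lt_iff₀ (by linarith)]
        nlinarith [Real.pi_pos, mul_le_mul_of_nonneg_left h Real.pi_pos.le]
      · have h4 : (9 / 10 : ℝ) ^ 2 ≤ ‖x‖ ^ 2 := pow_le_pow_left₀ (by norm_num) h2 2
        nlinarith [Real.pi_pos, mul_le_mul_of_nonneg_left h4 Real.pi_pos.le]
    linarith
  have hKdown : ∀ x ∈ K, ∀ y : E, (∀ j, |y j| ≤ |x j|) → y ∈ K := by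
    intro x hx y hy
    have hx' : pot ρ x = c := hx
    exact le_antisymm (hle y) (hx' ▸ hmono x y hy)
  set T : Set E := {x | ∃ y ∈ K, ∀ j, |x j| < |y j|} with hT
  have hTK : T ⊆ K := by
    rintro x ⟨y, hy, hxy⟩
    exact hKdown y hy x (fun j => (hxy j).le)
  have hTopen : IsOpen T := by
    have : T = ⋃ y ∈ K, ⋂ j : Fin 3, {x : E | |x j| < |y j|} := by
      ext x; simp [hT]
    rw [this]
    refine isOpen_biUnion fun y _ => ?_
    refine isOpen_iInter_of_finite fun j => ?_
    exact isOpen_lt (by fun_prop) continuous_const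
  -- the cavity is not empty
  have h0T : (0 : E) ∈ T := by
    by_contra h0
    have h1 : ∀ y ∈ K, ∃ j, y j = 0 := by
      intro y hy
      by_contra h2
      push Not at h2
      exact h0 ⟨y, hy, fun j => by simpa using h2 j⟩
    have h2 : ∀ᵐ x, U0.indicator (fun _ => (1 : ℝ)) x = ρ x := by
      filter_upwards [ae_coord_ne, hone] with x hx hx1
      by_cases hxU : x ∈ U0
      · rw [indicator_of_mem hxU]
        have h3 : pot ρ x < c := by
          refine lt_of_le_of_ne (hle x) fun h4 => ?_
          obtain ⟨j, hj⟩ := h1 x h4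
          exact hx j hj
        exact (hx1 hxU h3).symm
      · rw [indicator_of_notMem hxU]
        have h3 := hρ.2.2 x
        rw [indicator_of_notMem hxU] at h3
        exact (le_antisymm h3 (hρ.2.1 x)).symm
    have h3 : pot ((ball (0 : E) (9 / 10)).indicator (fun _ => (1 : ℝ))) 0 ≤ pot ρ 0 := by
      rw [← pot_congr_ae h2]
      have hcl : Cl U0 (U0.indicator (fun _ => (1 : ℝ))) :=
        ⟨measurable_const.indicator U0_open.measurableSet, indicator_one_nonneg U0,
          fun x => le_refl _⟩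
      refine pot_mono (adm_indicator_ball 0 _) (cl_adm U0_sub hcl)
        (Eventually.of_forall fun y => ?_) 0
      refine indicator_le_indicator_of_subset ?_ (fun _ => zero_le_one) y
      intro z hz
      rw [mem_ball_zero_iff] at hz
      exact ⟨by linarith, lt_of_le_of_lt (abs_coord_le z 0) hz⟩
    rw [pot_indicator_ball 0 0 (9 / 10) (by norm_num)] at h3
    have h4 := hle 0
    have h5 : bp (9 / 10) ‖(0 : E) - 0‖ = 2 * π * (81 / 100) := by
      simp only [sub_zero, norm_zero, bp]
      norm_num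
    rw [h5] at h3
    nlinarith [Real.pi_pos]
  have hclTK : closure T ⊆ K := closure_minimal hTK hKcl
  have hstar : ∀ x ∈ closure T, ∀ t : ℝ, 0 ≤ t → t < 1 → t • x ∈ T := by
    intro x hx t ht ht1
    set N : Set E := ⋂ j : Fin 3, {z : E | x j = 0 ∨ t * |x j| < |z j|} with hN
    have hNopen : IsOpen N := by
      refine isOpen_iInter_of_finite fun j => ?_
      by_cases hj : x j = 0
      · simp [hj]
      · simp only [hj, false_or]
        exact isOpen_lt continuous_const (by fun_prop)
    have hxN : x ∈ N := by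
      rw [hN, mem_iInter]
      intro j
      by_cases hj : x j = 0
      · exact Or.inl hj
      · right
        have := abs_pos.2 hj
        nlinarith
    obtain ⟨z, hzN, y, hy, hzy⟩ := mem_closure_iff.1 hx N hNopen hxN
    refine ⟨y, hy, fun j => ?_⟩
    rw [PiLp.smul_apply, smul_eq_mul, abs_mul, abs_of_nonneg ht]
    rw [hN, mem_iInter] at hzN
    rcases hzN j with h | h
    · rw [h, abs_zero, mul_zero]
      exact lt_of_le_of_lt (abs_nonneg _) (hzy j)
    · exact h.trans (hzy j)
  refine ⟨T, hTopen, h0T, hclTK.trans hKU, hstar, c, ?_⟩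
  -- measure of K \ T
  have hKfin : volume K ≠ ⊤ := ((measure_mono (hKU.trans U0_sub)).trans_lt measure_ball_lt_top).ne
  have hnull : volume (K \ T) = 0 := by
    set Z : Set E := {x : E | ∀ i : Fin 3, x i ≠ 0} with hZ
    have hZae : ∀ᵐ x : E, x ∈ Z := ae_coord_ne
    have h1 : ∀ t : ℝ, 0 < t → t < 1 → ENNReal.ofReal (t ^ 3) * volume K ≤ volume T := by
      intro t ht ht1
      have h2 : volume K = volume (K ∩ Z) := by
        refine measure_congr ?_
        filter_upwards [hZae] with x hx
        exact propext ⟨fun h => ⟨h, hx⟩, fun h => h.1⟩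
      have h3 : t • (K ∩ Z) ⊆ T := by
        rintro _ ⟨x, ⟨hxK, hxZ⟩, rfl⟩
        refine ⟨x, hxK, fun j => ?_⟩
        show |(t • x) j| < |x j|
        rw [PiLp.smul_apply, smul_eq_mul, abs_mul, abs_of_pos ht]
        have := abs_pos.2 (hxZ j)
        nlinarith
      have h4 := measure_mono (μ := (volume : Measure E)) h3
      rw [Measure.addHaar_smul] at h4
      rw [h2]
      simpa [abs_of_pos (pow_pos ht 3)] using h4
    have h2 : volume K ≤ volume T := by
      have hlim : Tendsto (fun t : ℝ => ENNReal.ofReal (t ^ 3) * volume K) (𝓝[<] 1)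
          (𝓝 (ENNReal.ofReal (1 ^ 3) * volume K)) := by
        apply ENNReal.Tendsto.mul_const
        · apply ENNReal.tendsto_ofReal
          apply Tendsto.mono_left _ nhdsWithin_le_nhds
          exact (continuous_pow 3).tendsto 1
        · right; exact hKfin
      simp only [one_pow, ENNReal.ofReal_one, one_mul] at hlim
      refine le_of_tendsto hlim ?_
      have h3 : ∀ᶠ t : ℝ in 𝓝[<] 1, 0 < t :=
        nhdsWithin_le_nhds (lt_mem_nhds (by norm_num))
      filter_upwards [h3, self_mem_nhdsWithin] with t ht ht1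
      exact h1 t ht ht1
    rw [measure_sdiff hTK hTopen.measurableSet.nullMeasurableSet
      ((measure_mono hTK).trans_lt (lt_top_iff_ne_top.2 hKfin)).ne]
    exact tsub_eq_zero_of_le h2
  -- the density vanishes on T
  have hzero : ∀ᵐ x, x ∈ T → ρ x = 0 := by
    have h1 : volume (T ∩ {x | ρ x ≠ 0}) = 0 := by
      apply measure_null_of_locally_null
      rintro x ⟨hx, _⟩
      obtain ⟨r, hr, hrT⟩ := Metric.isOpen_iff.1 hTopen x hx
      refine ⟨(T ∩ {x | ρ x ≠ 0}) ∩ ball x r, inter_mem_nhdsWithin _ (ball_mem_nhds x hr), ?_⟩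
      have h2 : ∀ z ∈ ball x r, pot ρ z = c := fun z hz => hTK (hrT hz)
      have h3 := zero_of_mean aρ hρ.2.1 x hr (by
        rw [h2 x (mem_ball_self hr), setIntegral_congr_fun measurableSet_ball h2,
          setIntegral_const, volume_real_ball x hr, smul_eq_mul])
      rw [ae_iff] at h3
      refine measure_mono_null ?_ h3
      rintro z ⟨⟨_, hz⟩, hzb⟩
      simp only [mem_ofPred_eq, Classical.not_imp]
      exact ⟨hzb, hz⟩
    rw [ae_iff]
    convert! h1 using 2
    ext x
    simp [Classical.not_imp]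
  intro P hP
  have h1 : ∀ᵐ M, (U0 \ closure T).indicator (fun _ => (1 : ℝ)) M = ρ M := by
    have hKT : ∀ᵐ M, ¬ (M ∈ K \ T) := by
      rw [ae_iff]
      have hset : {a : E | ¬¬ (a ∈ K \ T)} = K \ T := by
        ext a; exact not_not
      rw [hset]; exact hnull
    filter_upwards [hKT, hzero, hone] with M h1 h2 h3
    by_cases hMU : M ∈ U0
    · by_cases hMK : M ∈ K
      · have hMT : M ∈ T := by
          by_contra h; exact h1 ⟨hMK, h⟩
        rw [h2 hMT, indicator_of_notMem]
        exact fun h => h.2 (subset_closure hMT)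
      · have h4 : pot ρ M < c := lt_of_le_of_ne (hle M) hMK
        rw [h3 hMU h4, indicator_of_mem]
        exact ⟨hMU, fun h => hMK (hclTK h)⟩
    · have h4 := hρ.2.2 M
      rw [indicator_of_notMem hMU] at h4
      rw [indicator_of_notMem (fun h => hMU h.1)]
      exact (le_antisymm h4 (hρ.2.1 M)).symm
  have hm : MeasurableSet (U0 \ closure T) := U0_open.measurableSet.diff isClosed_closure.measurableSet
  rw [← integral_indicator hm]
  have h2 : pot ((U0 \ closure T).indicator (fun _ => (1 : ℝ))) P = c := by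
    rw [pot_congr_ae h1]
    exact hTK hP
  rw [← h2]
  unfold pot
  congr 1
  ext M
  by_cases hM : M ∈ U0 \ closure T
  · simp [hM, dist_eq_norm]
  · simp [hM]

end Pool.Agent.HollowShell
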