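import Pool.Agent.Lib.MP_7dd24e_an.Final

/-!
# Hollow shells: every unconditional outer solid between two balls is possible (helper64, after helper34)
-/

set_option autoImplicit false
open MeasureTheory Set Metric Filter
open scoped Real Topology Pointwise

namespace Pool.Agent.HollowShell

/-- contraction of the closure of an unconditional open set -/
theorem star_of_uncond {T : Set E} (hTu : ∀ x ∈ T, ∀ y : E, (∀ j, |y j| ≤ |x j|) → y ∈ T) :
    ∀ x ∈ closure T, ∀ t : ℝ, 0 ≤ t → t < 1 → t • x ∈ T := by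
  intro x hx t ht ht1
  set N : Set E := ⋂ j : Fin 3, {z : E | x j = 0 ∨ t * |x j| < |z j|} with hN
  have hNopen : IsOpen N := by
    refine isOpen_iInter_of_finite fun j => ?_
    by_cases hj : x j = 0
    · simp [hj]
    · simp only [hj, false_or]
      exact isOpen_lt continuous_const (by fun_prop)
  have hxN : x ∈ N := by
    rw [hN, mem_iInter]
    intro j
    by_cases hj : x j = 0
    · exact Or.inl hj
    · right
      have := abs_pos.2 hj
      nlinarith
  obtain ⟨z, hzN, hzT⟩ := mem_closure_iff.1 hx N hNopen hxN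
  refine hTu z hzT _ fun j => ?_
  rw [PiLp.smul_apply, smul_eq_mul, abs_mul, abs_of_nonneg ht]
  rw [hN, mem_iInter] at hzN
  rcases hzN j with h | h
  · rw [h, abs_zero, mul_zero]
    exact abs_nonneg _
  · exact h.le

/-- a cavity for a general outer solid -/
theorem shell_general {U : Set E} (hUo : IsOpen U) (hUs : U ⊆ ball 0 1)
    (hUu : ∀ x ∈ U, ∀ y : E, (∀ j, |y j| ≤ |x j|) → y ∈ U) {r : ℝ} (hr : 0 < r)
    (hr2 : 3 / 4 < r ^ 2) (hrU : ball 0 r ⊆ U) :
    ∃ T : Set E, IsOpen T ∧ (0 : E) ∈ T ∧ closure T ⊆ U ∧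
    (∀ x ∈ closure T, ∀ t : ℝ, 0 ≤ t → t < 1 → t • x ∈ T) ∧
    ∃ c : ℝ, ∀ P ∈ closure T, ∫ M in U \ closure T, (dist P M)⁻¹ = c := by
  set c : ℝ := π * (1 + 2 / 3 * r ^ 2) with hc
  have hcpos : 0 < c := by positivity
  obtain ⟨ρ, hρ, hle, hone⟩ := exists_obstacle hUo.measurableSet hUs hcpos
  have aρ := cl_adm hUs hρ
  have hcont := pot_continuous aρ
  have hmono := mono_all hUs hUu hρ hle hone
  set K : Set E := {x | pot ρ x = c} with hK
  have hKcl : IsClosed K := isClosed_eq hcont continuous_const
  have hKU : K ⊆ U := by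
    intro x hx
    by_contra hxU
    have hx' : pot ρ x = c := hx
    have h1 := cl_pot_le_bp hUs hρ x
    have h2 : r ≤ ‖x‖ := by
      by_contra h3
      push Not at h3
      exact hxU (hrU (mem_ball_zero_iff.2 h3))
    have h6 : π * (3 / 4) < π * r ^ 2 := mul_lt_mul_of_pos_left hr2 Real.pi_pos
    have h3 : bp 1 ‖x‖ < c := by
      unfold bp
      split_ifs with h
      · rw [div_lt_iff₀ (by linarith)]
        have h7 : c ≤ c * ‖x‖ := le_mul_of_one_le_right hcpos.le h
        nlinarith [Real.pi_pos]
      · have h4 : r ^ 2 ≤ ‖x‖ ^ 2 := pow_le_pow_left₀ hr.le h2 2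
        nlinarith [Real.pi_pos, mul_le_mul_of_nonneg_left h4 Real.pi_pos.le]
    linarith
  have hKdown : ∀ x ∈ K, ∀ y : E, (∀ j, |y j| ≤ |x j|) → y ∈ K := by
    intro x hx y hy
    have hx' : pot ρ x = c := hx
    exact le_antisymm (hle y) (hx' ▸ hmono x y hy)
  set T : Set E := {x | ∃ y ∈ K, ∀ j, |x j| < |y j|} with hT
  have hTK : T ⊆ K := by
    rintro x ⟨y, hy, hxy⟩
    exact hKdown y hy x (fun j => (hxy j).le)
  have hTopen : IsOpen T := by
    have : T = ⋃ y ∈ K, ⋂ j : Fin 3, {x : E | |x j| < |y j|} := by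
      ext x; simp [hT]
    rw [this]
    refine isOpen_biUnion fun y _ => ?_
    refine isOpen_iInter_of_finite fun j => ?_
    exact isOpen_lt (by fun_prop) continuous_const
  -- the cavity is not empty
  have h0T : (0 : E) ∈ T := by
    by_contra h0
    have h1 : ∀ y ∈ K, ∃ j, y j = 0 := by
      intro y hy
      by_contra h2
      push Not at h2
      exact h0 ⟨y, hy, fun j => by simpa using h2 j⟩
    have h2 : ∀ᵐ x, U.indicator (fun _ => (1 : ℝ)) x = ρ x := by
      filter_upwards [ae_coord_ne, hone] with x hx hx1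
      by_cases hxU : x ∈ U
      · rw [indicator_of_mem hxU]
        have h3 : pot ρ x < c := by
          refine lt_of_le_of_ne (hle x) fun h4 => ?_
          obtain ⟨j, hj⟩ := h1 x h4
          exact hx j hj
        exact (hx1 hxU h3).symm
      · rw [indicator_of_notMem hxU]
        have h3 := hρ.2.2 x
        rw [indicator_of_notMem hxU] at h3
        exact (le_antisymm h3 (hρ.2.1 x)).symm
    have h3 : pot ((ball (0 : E) r).indicator (fun _ => (1 : ℝ))) 0 ≤ pot ρ 0 := by
      rw [← pot_congr_ae h2]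
      have hcl : Cl U (U.indicator (fun _ => (1 : ℝ))) :=
        ⟨measurable_const.indicator hUo.measurableSet, indicator_one_nonneg U,
          fun x => le_refl _⟩
      refine pot_mono (adm_indicator_ball 0 _) (cl_adm hUs hcl)
        (Eventually.of_forall fun y => ?_) 0
      refine indicator_le_indicator_of_subset ?_ (fun _ => zero_le_one) y
      exact hrU
    rw [pot_indicator_ball 0 0 r hr] at h3
    have h4 := hle 0
    have h5 : bp r ‖(0 : E) - 0‖ = 2 * π * r ^ 2 := by
      simp only [sub_zero, norm_zero, bp]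
      rw [if_neg (not_le.2 hr)]
      ring
    rw [h5] at h3
    have h6 : π * (3 / 4) < π * r ^ 2 := mul_lt_mul_of_pos_left hr2 Real.pi_pos
    nlinarith [Real.pi_pos]
  have hclTK : closure T ⊆ K := closure_minimal hTK hKcl
  have hstar : ∀ x ∈ closure T, ∀ t : ℝ, 0 ≤ t → t < 1 → t • x ∈ T := by
    intro x hx t ht ht1
    set N : Set E := ⋂ j : Fin 3, {z : E | x j = 0 ∨ t * |x j| < |z j|} with hN
    have hNopen : IsOpen N := by
      refine isOpen_iInter_of_finite fun j => ?_
      by_cases hj : x j = 0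
      · simp [hj]
      · simp only [hj, false_or]
        exact isOpen_lt continuous_const (by fun_prop)
    have hxN : x ∈ N := by
      rw [hN, mem_iInter]
      intro j
      by_cases hj : x j = 0
      · exact Or.inl hj
      · right
        have := abs_pos.2 hj
        nlinarith
    obtain ⟨z, hzN, y, hy, hzy⟩ := mem_closure_iff.1 hx N hNopen hxN
    refine ⟨y, hy, fun j => ?_⟩
    rw [PiLp.smul_apply, smul_eq_mul, abs_mul, abs_of_nonneg ht]
    rw [hN, mem_iInter] at hzN
    rcases hzN j with h | h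
    · rw [h, abs_zero, mul_zero]
      exact lt_of_le_of_lt (abs_nonneg _) (hzy j)
    · exact h.trans (hzy j)
  refine ⟨T, hTopen, h0T, hclTK.trans hKU, hstar, c, ?_⟩
  -- measure of K \ T
  have hKfin : volume K ≠ ⊤ := ((measure_mono (hKU.trans hUs)).trans_lt measure_ball_lt_top).ne
  have hnull : volume (K \ T) = 0 := by
    set Z : Set E := {x : E | ∀ i : Fin 3, x i ≠ 0} with hZ
    have hZae : ∀ᵐ x : E, x ∈ Z := ae_coord_ne
    have h1 : ∀ t : ℝ, 0 < t → t < 1 → ENNReal.ofReal (t ^ 3) * volume K ≤ volume T := by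
      intro t ht ht1
      have h2 : volume K = volume (K ∩ Z) := by
        refine measure_congr ?_
        filter_upwards [hZae] with x hx
        exact propext ⟨fun h => ⟨h, hx⟩, fun h => h.1⟩
      have h3 : t • (K ∩ Z) ⊆ T := by
        rintro _ ⟨x, ⟨hxK, hxZ⟩, rfl⟩
        refine ⟨x, hxK, fun j => ?_⟩
        show |(t • x) j| < |x j|
        rw [PiLp.smul_apply, smul_eq_mul, abs_mul, abs_of_pos ht]
        have := abs_pos.2 (hxZ j)
        nlinarith
      have h4 := measure_mono (μ := (volume : Measure E)) h3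
      rw [Measure.addHaar_smul] at h4
      rw [h2]
      simpa [abs_of_pos (pow_pos ht 3)] using h4
    have h2 : volume K ≤ volume T := by
      have hlim : Tendsto (fun t : ℝ => ENNReal.ofReal (t ^ 3) * volume K) (𝓝[<] 1)
          (𝓝 (ENNReal.ofReal (1 ^ 3) * volume K)) := by
        apply ENNReal.Tendsto.mul_const
        · apply ENNReal.tendsto_ofReal
          apply Tendsto.mono_left _ nhdsWithin_le_nhds
          exact (continuous_pow 3).tendsto 1
        · right; exact hKfin
      simp only [one_pow, ENNReal.ofReal_one, one_mul] at hlim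
      refine le_of_tendsto hlim ?_
      have h3 : ∀ᶠ t : ℝ in 𝓝[<] 1, 0 < t :=
        nhdsWithin_le_nhds (lt_mem_nhds (by norm_num))
      filter_upwards [h3, self_mem_nhdsWithin] with t ht ht1
      exact h1 t ht ht1
    rw [measure_sdiff hTK hTopen.measurableSet.nullMeasurableSet
      ((measure_mono hTK).trans_lt (lt_top_iff_ne_top.2 hKfin)).ne]
    exact tsub_eq_zero_of_le h2
  -- the density vanishes on T
  have hzero : ∀ᵐ x, x ∈ T → ρ x = 0 := by
    have h1 : volume (T ∩ {x | ρ x ≠ 0}) = 0 := by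
      apply measure_null_of_locally_null
      rintro x ⟨hx, _⟩
      obtain ⟨r, hr, hrT⟩ := Metric.isOpen_iff.1 hTopen x hx
      refine ⟨(T ∩ {x | ρ x ≠ 0}) ∩ ball x r, inter_mem_nhdsWithin _ (ball_mem_nhds x hr), ?_⟩
      have h2 : ∀ z ∈ ball x r, pot ρ z = c := fun z hz => hTK (hrT hz)
      have h3 := zero_of_mean aρ hρ.2.1 x hr (by
        rw [h2 x (mem_ball_self hr), setIntegral_congr_fun measurableSet_ball h2,
          setIntegral_const, volume_real_ball x hr, smul_eq_mul])
      rw [ae_iff] at h3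
      refine measure_mono_null ?_ h3
      rintro z ⟨⟨_, hz⟩, hzb⟩
      simp only [mem_ofPred_eq, Classical.not_imp]
      exact ⟨hzb, hz⟩
    rw [ae_iff]
    convert! h1 using 2
    ext x
    simp [Classical.not_imp]
  intro P hP
  have h1 : ∀ᵐ M, (U \ closure T).indicator (fun _ => (1 : ℝ)) M = ρ M := by
    have hKT : ∀ᵐ M, ¬ (M ∈ K \ T) := by
      rw [ae_iff]
      have hset : {a : E | ¬¬ (a ∈ K \ T)} = K \ T := by
        ext a; exact not_not
      rw [hset]; exact hnull
    filter_upwards [hKT, hzero, hone] with M h1 h2 h3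
    by_cases hMU : M ∈ U
    · by_cases hMK : M ∈ K
      · have hMT : M ∈ T := by
          by_contra h; exact h1 ⟨hMK, h⟩
        rw [h2 hMT, indicator_of_notMem]
        exact fun h => h.2 (subset_closure hMT)
      · have h4 : pot ρ M < c := lt_of_le_of_ne (hle M) hMK
        rw [h3 hMU h4, indicator_of_mem]
        exact ⟨hMU, fun h => hMK (hclTK h)⟩
    · have h4 := hρ.2.2 M
      rw [indicator_of_notMem hMU] at h4
      rw [indicator_of_notMem (fun h => hMU h.1)]
      exact (le_antisymm h4 (hρ.2.1 M)).symm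
  have hm : MeasurableSet (U \ closure T) := hUo.measurableSet.diff isClosed_closure.measurableSet
  rw [← integral_indicator hm]
  have h2 : pot ((U \ closure T).indicator (fun _ => (1 : ℝ))) P = c := by
    rw [pot_congr_ae h1]
    exact hclTK hP
  rw [← h2]
  unfold pot
  congr 1
  ext M
  by_cases hM : M ∈ U \ closure T
  · simp [hM, dist_eq_norm]
  · simp [hM]

end Pool.Agent.HollowShell
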