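import Pool.Agent.Lib.MP_7dd24e_an.Obstacle

set_option autoImplicit false
open MeasureTheory Set Metric Filter
open scoped Real Topology

namespace Pool.Agent.HollowShell

/-- Sign change of the `i`-th coordinate. -/
noncomputable def flip (i : Fin 3) : E ≃ₗᵢ[ℝ] E :=
  LinearIsometryEquiv.piLpCongrRight 2
    (fun j => if j = i then LinearIsometryEquiv.neg ℝ else LinearIsometryEquiv.refl ℝ ℝ)

lemma flip_apply (i : Fin 3) (x : E) (j : Fin 3) : flip i x j = if j = i then - x j else x j := by
  simp only [flip, LinearIsometryEquiv.piLpCongrRight_apply]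
  split_ifs with h <;> simp

/-- Reflection in the plane `x i = l`. -/
noncomputable def refl (i : Fin 3) (l : ℝ) (x : E) : E := flip i x + EuclideanSpace.single i (2 * l)

lemma refl_apply (i : Fin 3) (l : ℝ) (x : E) (j : Fin 3) :
    refl i l x j = if j = i then 2 * l - x j else x j := by
  simp only [refl, PiLp.add_apply, flip_apply]
  split_ifs with h
  · subst h; simp; ring
  · simp [h]

lemma refl_refl (i : Fin 3) (l : ℝ) (x : E) : refl i l (refl i l x) = x := by
  ext j
  rw [refl_apply, refl_apply]
  split_ifs <;> ring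

lemma norm_refl_sub (i : Fin 3) (l : ℝ) (x y : E) : ‖refl i l x - refl i l y‖ = ‖x - y‖ := by
  simp only [refl, add_sub_add_right_eq_sub, ← map_sub, LinearIsometryEquiv.norm_map]

lemma refl_continuous (i : Fin 3) (l : ℝ) : Continuous (refl i l) := by
  unfold refl
  exact (flip i).continuous.add continuous_const

lemma refl_measurePreserving (i : Fin 3) (l : ℝ) :
    MeasurePreserving (refl i l) (volume : Measure E) volume :=
  (measurePreserving_add_right volume _).comp (flip i).measurePreserving

lemma refl_measurableEmbedding (i : Fin 3) (l : ℝ) : MeasurableEmbedding (refl i l) := by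
  have h : refl i l = (Homeomorph.addRight (EuclideanSpace.single i (2 * l) : E)) ∘ (flip i) := by
    ext x; simp [refl]
  rw [h]
  exact (Homeomorph.measurableEmbedding _).comp (flip i).toHomeomorph.measurableEmbedding

lemma pot_comp_refl (f : E → ℝ) (i : Fin 3) (l : ℝ) (x : E) :
    pot (fun y => f (refl i l y)) x = pot f (refl i l x) := by
  unfold pot
  rw [← (refl_measurePreserving i l).integral_comp (refl_measurableEmbedding i l)
    (fun y => f y * ‖refl i l x - y‖⁻¹)]
  simp only [norm_refl_sub]

lemma adm_comp_refl {f : E → ℝ} (hf : Adm f) (i : Fin 3) (l : ℝ) :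
    Adm (fun y => f (refl i l y)) := by
  obtain ⟨mf, ⟨M, hM⟩, ⟨R, hR⟩⟩ := hf
  refine ⟨mf.comp (refl_continuous i l).measurable, ⟨M, fun x => hM _⟩,
    ⟨R + ‖(EuclideanSpace.single i (2 * l) : E)‖, fun x hx => ?_⟩⟩
  apply hR
  intro h
  apply hx
  rw [mem_closedBall_zero_iff] at h ⊢
  have h1 : ‖x‖ = ‖flip i x‖ := (LinearIsometryEquiv.norm_map _ _).symm
  have h2 : flip i x = refl i l x - EuclideanSpace.single i (2 * l) := by
    simp [refl]
  rw [h1, h2]
  exact (norm_sub_le _ _).trans (by linarith)

section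
variable {U : Set E} (hUm : MeasurableSet U) (hU : U ⊆ ball 0 1)
  (hUu : ∀ x ∈ U, ∀ y : E, (∀ j, |y j| ≤ |x j|) → y ∈ U)
  {ρ : E → ℝ} {c : ℝ} (hρ : Cl U ρ) (hle : ∀ x, pot ρ x ≤ c)
  (hone : ∀ᵐ x, x ∈ U → pot ρ x < c → ρ x = 1)

include hU hUu hρ hle hone in
/-- Moving planes. -/
lemma moving_plane (i : Fin 3) (l ε : ℝ) (hε : ε = 1 ∨ ε = -1) (hl : 0 ≤ ε * l) (x : E)
    (hx : 0 < ε * (x i - l)) : pot ρ x ≤ pot ρ (refl i l x) := by
  have aρ := cl_adm hU hρ
  have aρ' := adm_comp_refl aρ i l
  have aσ := aρ.sub aρ'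
  have hcont := pot_continuous aσ
  set σ : E → ℝ := fun y => ρ y - ρ (refl i l y) with hσ
  have hpσ : ∀ y, pot σ y = pot ρ y - pot ρ (refl i l y) := by
    intro y
    rw [hσ, pot_sub aρ aρ', pot_comp_refl]
  set W : Set E := {y | 0 < ε * (y i - l)} ∩ {y | 0 < pot σ y} with hW
  have hWo : IsOpen W := by
    refine IsOpen.inter (isOpen_lt continuous_const ?_) (isOpen_lt continuous_const hcont)
    fun_prop
  have hbd : ∀ y ∈ closure W, y ∉ W → pot σ y ≤ 0 := by
    intro y hy hyW
    have h1 : closure W ⊆ {y : E | 0 ≤ ε * (y i - l)} := by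
      apply closure_minimal
      · rintro z ⟨hz, _⟩
        exact le_of_lt (show 0 < ε * (z i - l) from hz)
      · exact isClosed_le continuous_const (by fun_prop)
    have h2 : 0 ≤ ε * (y i - l) := h1 hy
    rcases h2.lt_or_eq with h3 | h3
    · by_contra h4
      exact hyW ⟨h3, not_le.1 h4⟩
    · have h5 : y i = l := by
        rcases hε with rfl | rfl <;> linarith
      have h6 : refl i l y = y := by
        ext j
        rw [refl_apply]
        split_ifs with hj
        · subst hj; linarith
        · rfl
      rw [hpσ, h6, sub_self]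
  have hneg : ∀ᵐ y, y ∈ W → σ y ≤ 0 := by
    have hone' : ∀ᵐ y, refl i l y ∈ U → pot ρ (refl i l y) < c → ρ (refl i l y) = 1 :=
      (refl_measurePreserving i l).quasiMeasurePreserving.ae hone
    filter_upwards [hone'] with y hy hyW
    obtain ⟨h1, h2⟩ := hyW
    have h1' : 0 < ε * (y i - l) := h1
    have h2' : 0 < pot σ y := h2
    rw [hpσ] at h2'
    have h3 : pot ρ (refl i l y) < c := lt_of_lt_of_le (by linarith) (hle y)
    show ρ y - ρ (refl i l y) ≤ 0
    by_cases hyU : y ∈ U
    · have h4 : refl i l y ∈ U := by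
        refine hUu y hyU _ fun j => ?_
        rw [refl_apply]
        split_ifs with hj
        · subst hj
          rcases hε with rfl | rfl
          · rw [abs_of_pos (show 0 < y j by linarith), abs_le]
            constructor <;> linarith
          · rw [abs_of_neg (show y j < 0 by linarith), abs_le]
            constructor <;> linarith
        · exact le_refl _
      rw [hy h4 h3]
      have := (hρ.2.2 y).trans (indicator_one_le U y)
      linarith
    · have h5 := hρ.2.2 y
      rw [indicator_of_notMem hyU] at h5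
      have h6 := hρ.2.1 (refl i l y)
      linarith
  have hempty := max_principle aσ le_rfl hWo (fun y hy => hy.2) hbd hneg
  by_contra hcon
  push Not at hcon
  have : x ∈ W := ⟨hx, by
    show 0 < pot σ x
    rw [hpσ]; linarith⟩
  rw [hempty] at this
  exact this

include hU hUu hρ hle hone in
lemma mono_coord (i : Fin 3) (x y : E) (hne : ∀ j, j ≠ i → y j = x j) (hi : |y i| ≤ |x i|) :
    pot ρ x ≤ pot ρ y := by
  by_cases hxy : y i = x i
  · have : y = x := by
      ext j
      by_cases hj : j = i
      · subst hj; exact hxy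
      · exact hne j hj
    rw [this]
  · have hy : y = refl i ((x i + y i) / 2) x := by
      ext j
      rw [refl_apply]
      split_ifs with hj
      · subst hj; ring
      · exact hne j hj
    rw [hy]
    rcases lt_trichotomy (x i) 0 with h | h | h
    · rw [abs_of_neg h, abs_le] at hi
      have h1 : x i < y i := lt_of_le_of_ne (by linarith [hi.1]) (Ne.symm hxy)
      apply moving_plane hU hUu hρ hle hone i _ (-1) (Or.inr rfl) <;> linarith [hi.2]
    · rw [h, abs_zero] at hi
      have : y i = 0 := abs_eq_zero.1 (le_antisymm hi (abs_nonneg _))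
      exact absurd (this.trans h.symm) hxy
    · rw [abs_of_pos h, abs_le] at hi
      have h1 : y i < x i := lt_of_le_of_ne hi.2 hxy
      apply moving_plane hU hUu hρ hle hone i _ 1 (Or.inl rfl) <;> linarith [hi.1]

include hU hUu hρ hle hone in
theorem mono_all (x y : E) (h : ∀ j, |y j| ≤ |x j|) : pot ρ x ≤ pot ρ y := by
  set z1 : E := WithLp.toLp 2 ![y 0, x 1, x 2] with hz1
  set z2 : E := WithLp.toLp 2 ![y 0, y 1, x 2] with hz2
  have h1 : pot ρ x ≤ pot ρ z1 := by
    refine mono_coord hU hUu hρ hle hone 0 x z1 ?_ (by simpa [hz1] using h 0)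
    intro j hj
    fin_cases j <;> simp_all
  have h2 : pot ρ z1 ≤ pot ρ z2 := by
    refine mono_coord hU hUu hρ hle hone 1 z1 z2 ?_ (by simpa [hz1, hz2] using h 1)
    intro j hj
    fin_cases j <;> simp_all
  have h3 : pot ρ z2 ≤ pot ρ y := by
    refine mono_coord hU hUu hρ hle hone 2 z2 y ?_ (by simpa [hz2] using h 2)
    intro j hj
    fin_cases j <;> simp_all
  exact h1.trans (h2.trans h3)

end

end Pool.Agent.HollowShell
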