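import Pool.Agent.Lib.MP_7dd24e_an.Exist2

set_option autoImplicit false
open MeasureTheory Set Metric Filter
open scoped Real Topology

namespace Pool.Agent.HollowShell

section
variable {U : Set E} (hUm : MeasurableSet U) (hU : U ⊆ ball 0 1)

include hU in
/-- First order condition at a minimizer. -/
lemma variational {c : ℝ} {ρ : E → ℝ} (hρ : Cl U ρ) (hmin : ∀ g, Cl U g → Jf c ρ ≤ Jf c g)
    {g : E → ℝ} (hg : Cl U g) : 0 ≤ ∫ x, (g x - ρ x) * (pot ρ x - c) := by
  have aρ := cl_adm hU hρ
  have ag := cl_adm hU hg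
  have ad := ag.sub aρ
  set L := (∫ x, (g x - ρ x) * pot ρ x) - c * ∫ x, (g x - ρ x) with hL
  set Q := ∫ x, (g x - ρ x) * pot (fun y => g y - ρ y) x with hQ
  have h1 : ∀ t : ℝ, 0 < t → t ≤ 1 → 0 ≤ L + t / 2 * Q := by
    intro t ht ht1
    have hcl : Cl U (fun x => ρ x + t * (g x - ρ x)) := by
      refine ⟨hρ.1.add ((hg.1.sub hρ.1).const_mul t), fun x => ?_, fun x => ?_⟩
      · have h2 := hρ.2.1 x
        have h3 := hg.2.1 x
        show 0 ≤ ρ x + t * (g x - ρ x)
        nlinarith
      · have h2 := hρ.2.2 x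
        have h3 := hg.2.2 x
        show ρ x + t * (g x - ρ x) ≤ _
        nlinarith
    have h4 := hmin _ hcl
    rw [Jf_expand c aρ ad t] at h4
    have h5 : 0 ≤ t * (L + t / 2 * Q) := by
      have : t * (L + t / 2 * Q) = t * L + t ^ 2 / 2 * Q := by ring
      rw [this]
      linarith
    exact nonneg_of_mul_nonneg_right h5 ht
  have hLnn : 0 ≤ L := by
    have hlim : Tendsto (fun t : ℝ => L + t / 2 * Q) (𝓝[>] 0) (𝓝 (L + 0 / 2 * Q)) := by
      apply Tendsto.mono_left _ nhdsWithin_le_nhds
      exact (by fun_prop : Continuous fun t : ℝ => L + t / 2 * Q).tendsto 0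
    have hev : ∀ᶠ t : ℝ in 𝓝[>] 0, 0 ≤ L + t / 2 * Q := by
      have h6 : ∀ᶠ t : ℝ in 𝓝[>] 0, t ≤ 1 :=
        nhdsWithin_le_nhds (eventually_le_nhds (by norm_num : (0 : ℝ) < 1))
      filter_upwards [h6, self_mem_nhdsWithin] with t ht1 ht0
      exact h1 t ht0 ht1
    have := ge_of_tendsto hlim hev
    simpa using this
  have i1 : Integrable (fun x => (g x - ρ x) * pot ρ x) :=
    (ad.mul_continuous (pot_continuous aρ)).integrable
  have e1 : ∀ x, (g x - ρ x) * (pot ρ x - c) = (g x - ρ x) * pot ρ x - c * (g x - ρ x) := by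
    intro x; ring
  simp only [e1]
  rw [integral_sub i1 (ad.integrable.const_mul c), integral_const_mul]
  exact hLnn

include hUm hU in
/-- Existence of the solution of the obstacle problem. -/
theorem exists_obstacle {c : ℝ} (hc : 0 < c) :
    ∃ ρ, Cl U ρ ∧ (∀ x, pot ρ x ≤ c) ∧ ∀ᵐ x, x ∈ U → pot ρ x < c → ρ x = 1 := by
  obtain ⟨ρ, hρ, hmin⟩ := exists_minimizer hUm hU c
  have aρ := cl_adm hU hρ
  have hcont := pot_continuous aρ
  have hint : ∀ g, Cl U g → Integrable (fun x => (g x - ρ x) * (pot ρ x - c)) := fun g hg =>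
    (((cl_adm hU hg).sub aρ).mul_continuous (hcont.sub continuous_const)).integrable
  refine ⟨ρ, hρ, ?_, ?_⟩
  · -- density vanishes where the potential exceeds c
    set W : Set E := {x | c < pot ρ x} with hW
    have hWo : IsOpen W := isOpen_lt continuous_const hcont
    have h0 : ∀ᵐ x, x ∈ W → ρ x = 0 := by
      classical
      set g : E → ℝ := Wᶜ.indicator ρ with hg
      have hgW : ∀ x ∈ W, g x = 0 := fun x hx => by simp [hg, hx]
      have hgW' : ∀ x, x ∉ W → g x = ρ x := fun x hx => by simp [hg, hx]
      have hgc : Cl U g := by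
        refine ⟨hρ.1.indicator hWo.measurableSet.compl, fun x => ?_, fun x => ?_⟩
        · by_cases hx : x ∈ W
          · rw [hgW x hx]
          · rw [hgW' x hx]; exact hρ.2.1 x
        · by_cases hx : x ∈ W
          · rw [hgW x hx]; exact indicator_one_nonneg U x
          · rw [hgW' x hx]; exact hρ.2.2 x
      have h1 := variational hU hρ hmin hgc
      have h2 : ∀ x, (g x - ρ x) * (pot ρ x - c) ≤ 0 := by
        intro x
        by_cases hx : x ∈ W
        · rw [hgW x hx]
          have hx' : c < pot ρ x := hx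
          have := hρ.2.1 x
          nlinarith
        · rw [hgW' x hx]; simp
      have h3 : ∫ x, -((g x - ρ x) * (pot ρ x - c)) = 0 := by
        rw [integral_neg]
        have := integral_nonpos (μ := (volume : Measure E)) h2
        linarith
      rw [integral_eq_zero_iff_of_nonneg (fun x => neg_nonneg.2 (h2 x)) (hint g hgc).neg] at h3
      filter_upwards [h3] with x hx hxW
      have hx' : c < pot ρ x := hxW
      rw [hgW x hxW] at hx
      simp only [Pi.zero_apply, zero_sub, neg_mul, neg_neg] at hx
      rcases mul_eq_zero.1 hx with h | h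
      · exact h
      · linarith
    have hempty := max_principle aρ hc.le hWo (fun x hx => hx)
      (fun x _ hx => not_lt.1 hx) (by filter_upwards [h0] with x hx hxW using (hx hxW).le)
    intro x
    by_contra hx
    push Not at hx
    have : x ∈ W := hx
    rw [hempty] at this
    exact this
  · set A : Set E := {x | pot ρ x < c} ∩ U with hA
    have hAm : MeasurableSet A := (isOpen_lt hcont continuous_const).measurableSet.inter hUm
    classical
    set g : E → ℝ := A.piecewise (fun _ => (1 : ℝ)) ρ with hg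
    have hgA : ∀ x ∈ A, g x = 1 := fun x hx => piecewise_eq_of_mem _ _ _ hx
    have hgA' : ∀ x, x ∉ A → g x = ρ x := fun x hx => piecewise_eq_of_notMem _ _ _ hx
    have hgc : Cl U g := by
      refine ⟨Measurable.piecewise hAm measurable_const hρ.1, fun x => ?_, fun x => ?_⟩
      · by_cases hx : x ∈ A
        · rw [hgA x hx]; exact zero_le_one
        · rw [hgA' x hx]; exact hρ.2.1 x
      · by_cases hx : x ∈ A
        · rw [hgA x hx, indicator_of_mem hx.2]
        · rw [hgA' x hx]; exact hρ.2.2 x
    have h1 := variational hU hρ hmin hgc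
    have hle1 : ∀ x, ρ x ≤ 1 := fun x => (hρ.2.2 x).trans (indicator_one_le U x)
    have h2 : ∀ x, (g x - ρ x) * (pot ρ x - c) ≤ 0 := by
      intro x
      by_cases hx : x ∈ A
      · rw [hgA x hx]
        have hx' : pot ρ x < c := hx.1
        have := hle1 x
        nlinarith
      · rw [hgA' x hx]; simp
    have h3 : ∫ x, -((g x - ρ x) * (pot ρ x - c)) = 0 := by
      rw [integral_neg]
      have := integral_nonpos (μ := (volume : Measure E)) h2
      linarith
    rw [integral_eq_zero_iff_of_nonneg (fun x => neg_nonneg.2 (h2 x)) (hint g hgc).neg] at h3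
    filter_upwards [h3] with x hx hxU hxc
    rw [hgA x ⟨hxc, hxU⟩] at hx
    simp only [Pi.zero_apply, neg_eq_zero] at hx
    rcases mul_eq_zero.1 hx with h | h
    · linarith
    · linarith

end

end Pool.Agent.HollowShell
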