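import Pool.Agent.Lib.MP_7dd24e_an.BallPot

set_option autoImplicit false
open MeasureTheory Set Metric Filter
open scoped Real Topology

namespace Pool.Agent.HollowShell

/-- Bounded measurable functions with bounded support. -/
def Adm (f : E → ℝ) : Prop :=
  Measurable f ∧ (∃ M, ∀ x, |f x| ≤ M) ∧ ∃ R, ∀ x, x ∉ closedBall (0 : E) R → f x = 0

/-- Newtonian potential of a density `f`. -/
noncomputable def pot (f : E → ℝ) (x : E) : ℝ := ∫ y, f y * ‖x - y‖⁻¹

lemma Adm.add {f g : E → ℝ} (hf : Adm f) (hg : Adm g) : Adm (fun x => f x + g x) := by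
  obtain ⟨mf, ⟨M, hM⟩, ⟨R, hR⟩⟩ := hf
  obtain ⟨mg, ⟨N, hN⟩, ⟨Q, hQ⟩⟩ := hg
  refine ⟨mf.add mg, ⟨M + N, fun x => ?_⟩, ⟨max R Q, fun x hx => ?_⟩⟩
  · exact (abs_add_le _ _).trans (add_le_add (hM x) (hN x))
  · show f x + g x = 0
    rw [hR x (fun h => hx (closedBall_subset_closedBall (le_max_left _ _) h)),
      hQ x (fun h => hx (closedBall_subset_closedBall (le_max_right _ _) h)), add_zero]

lemma Adm.const_mul {f : E → ℝ} (hf : Adm f) (c : ℝ) : Adm (fun x => c * f x) := by
  obtain ⟨mf, ⟨M, hM⟩, ⟨R, hR⟩⟩ := hf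
  refine ⟨mf.const_mul c, ⟨|c| * M, fun x => ?_⟩, ⟨R, fun x hx => ?_⟩⟩
  · rw [abs_mul]; exact mul_le_mul_of_nonneg_left (hM x) (abs_nonneg _)
  · show c * f x = 0
    rw [hR x hx, mul_zero]

lemma Adm.sub {f g : E → ℝ} (hf : Adm f) (hg : Adm g) : Adm (fun x => f x - g x) := by
  have := hf.add (hg.const_mul (-1))
  convert! this using 2
  ring

lemma Adm.mul_bdd {f g : E → ℝ} (hf : Adm f) (mg : Measurable g) (M : ℝ)
    (hg : ∀ x, |g x| ≤ M) : Adm (fun x => f x * g x) := by
  obtain ⟨mf, ⟨N, hN⟩, ⟨R, hR⟩⟩ := hf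
  refine ⟨mf.mul mg, ⟨N * M, fun x => ?_⟩, ⟨R, fun x hx => ?_⟩⟩
  · rw [abs_mul]
    exact mul_le_mul (hN x) (hg x) (abs_nonneg _) ((abs_nonneg _).trans (hN x))
  · show f x * g x = 0
    rw [hR x hx, zero_mul]

lemma Adm.integrable {f : E → ℝ} (hf : Adm f) : Integrable f := by
  obtain ⟨mf, ⟨M, hM⟩, ⟨R, hR⟩⟩ := hf
  have h1 : IntegrableOn f (closedBall 0 R) := by
    refine Measure.integrableOn_of_bounded (M := M) ?_ mf.aestronglyMeasurable ?_
    · exact (measure_closedBall_lt_top).ne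
    · exact Eventually.of_forall fun x => hM x
  rw [← integrableOn_univ]
  have h2 : IntegrableOn f (closedBall 0 R)ᶜ := by
    refine (integrableOn_zero).congr_fun (fun x hx => ?_) measurableSet_closedBall.compl
    simp [hR x hx]
  have := h1.union h2
  rwa [union_compl_self] at this

lemma Adm.integrable_mul_kernel {f : E → ℝ} (hf : Adm f) (x : E) :
    Integrable (fun y => f y * ‖x - y‖⁻¹) := by
  obtain ⟨mf, ⟨M, hM⟩, ⟨R, hR⟩⟩ := hf
  have hk : IntegrableOn (fun y : E => ‖x - y‖⁻¹) (closedBall 0 R) := by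
    have := integrableOn_inv_norm_sub x R
    simpa only [norm_sub_rev] using this
  have h1 : IntegrableOn (fun y => f y * ‖x - y‖⁻¹) (closedBall 0 R) := by
    refine Integrable.bdd_mul (c := M) hk mf.aestronglyMeasurable ?_
    exact Eventually.of_forall fun x => by simpa using hM x
  rw [← integrableOn_univ]
  have h2 : IntegrableOn (fun y => f y * ‖x - y‖⁻¹) (closedBall 0 R)ᶜ := by
    refine (integrableOn_zero).congr_fun (fun x hx => ?_) measurableSet_closedBall.compl
    simp [hR x hx]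
  have := h1.union h2
  rwa [union_compl_self] at this

lemma pot_add {f g : E → ℝ} (hf : Adm f) (hg : Adm g) (x : E) :
    pot (fun y => f y + g y) x = pot f x + pot g x := by
  unfold pot
  rw [← integral_add (hf.integrable_mul_kernel x) (hg.integrable_mul_kernel x)]
  congr 1; ext y; ring

lemma pot_const_mul (f : E → ℝ) (c : ℝ) (x : E) :
    pot (fun y => c * f y) x = c * pot f x := by
  unfold pot
  rw [← integral_const_mul]
  congr 1; ext y; ring

lemma pot_sub {f g : E → ℝ} (hf : Adm f) (hg : Adm g) (x : E) :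
    pot (fun y => f y - g y) x = pot f x - pot g x := by
  unfold pot
  rw [← integral_sub (hf.integrable_mul_kernel x) (hg.integrable_mul_kernel x)]
  congr 1; ext y; ring

lemma pot_mono {f g : E → ℝ} (hf : Adm f) (hg : Adm g) (h : ∀ᵐ y, f y ≤ g y) (x : E) :
    pot f x ≤ pot g x := by
  unfold pot
  apply integral_mono_ae (hf.integrable_mul_kernel x) (hg.integrable_mul_kernel x)
  filter_upwards [h] with y hy
  exact mul_le_mul_of_nonneg_right hy (by positivity)

lemma pot_congr_ae {f g : E → ℝ} (h : ∀ᵐ y, f y = g y) (x : E) : pot f x = pot g x := by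
  unfold pot
  apply integral_congr_ae
  filter_upwards [h] with y hy
  rw [hy]

lemma adm_indicator_ball (x : E) (r : ℝ) : Adm ((ball x r).indicator (fun _ => (1 : ℝ))) := by
  refine ⟨measurable_const.indicator measurableSet_ball, ⟨1, fun y => ?_⟩,
    ⟨‖x‖ + |r|, fun y hy => ?_⟩⟩
  · by_cases h : y ∈ ball x r <;> simp [h]
  · rw [indicator_of_notMem]
    intro h
    apply hy
    rw [mem_ball, dist_eq_norm] at h
    rw [mem_closedBall_zero_iff]
    have := norm_add_le x (y - x)
    rw [add_sub_cancel] at this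
    have h2 := le_abs_self r
    linarith

lemma pot_indicator_ball (x y : E) (r : ℝ) (hr : 0 < r) :
    pot ((ball x r).indicator (fun _ => (1 : ℝ))) y = bp r ‖x - y‖ := by
  rw [← ball_pot x y r hr, ← integral_indicator measurableSet_ball]
  unfold pot
  congr 1
  ext z
  by_cases h : z ∈ ball x r
  · simp [h, norm_sub_rev]
  · simp [h]

/-- `bp r s ≤ 2 π r²`. -/
lemma bp_le (r s : ℝ) (hr : 0 < r) : bp r s ≤ 2 * π * r ^ 2 := by
  unfold bp
  split_ifs with h
  · have hs : 0 < s := lt_of_lt_of_le hr h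
    rw [div_le_iff₀ hs]
    have h1 : r ^ 3 ≤ r ^ 2 * s := by nlinarith [sq_nonneg r]
    nlinarith [Real.pi_pos, mul_le_mul_of_nonneg_left h1 Real.pi_pos.le, pow_pos hr 3]
  · nlinarith [Real.pi_pos, sq_nonneg s, mul_nonneg Real.pi_pos.le (sq_nonneg s)]

/-- Truncated kernel. -/
noncomputable def potT (f : E → ℝ) (δ : ℝ) (x : E) : ℝ := ∫ y, f y * (max ‖x - y‖ δ)⁻¹

lemma potT_continuous {f : E → ℝ} (hf : Adm f) {δ : ℝ} (hδ : 0 < δ) : Continuous (potT f δ) := by
  unfold potT
  refine continuous_of_dominated (bound := fun y => |f y| * δ⁻¹) ?_ ?_ ?_ ?_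
  · intro x
    have : Measurable fun y => f y * (max ‖x - y‖ δ)⁻¹ :=
      hf.1.mul (((measurable_const.sub measurable_id).norm.max measurable_const).inv)
    exact this.aestronglyMeasurable
  · intro x
    refine Eventually.of_forall fun y => ?_
    rw [norm_mul, Real.norm_eq_abs]
    refine mul_le_mul_of_nonneg_left ?_ (abs_nonneg _)
    have hpos : 0 < max ‖x - y‖ δ := lt_of_lt_of_le hδ (le_max_right _ _)
    rw [norm_inv, Real.norm_eq_abs, abs_of_pos hpos]
    exact inv_anti₀ hδ (le_max_right _ _)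
  · exact hf.integrable.abs.mul_const _
  · refine Eventually.of_forall fun y => ?_
    have hne : ∀ x, max ‖x - y‖ δ ≠ 0 := fun x =>
      (lt_of_lt_of_le hδ (le_max_right _ _)).ne'
    exact continuous_const.mul ((by fun_prop : Continuous fun x => max ‖x - y‖ δ).inv₀ hne)

lemma Adm.integrable_mul_kernelT {f : E → ℝ} (hf : Adm f) (x : E) {δ : ℝ} (hδ : 0 < δ) :
    Integrable (fun y => f y * (max ‖x - y‖ δ)⁻¹) := by
  refine Integrable.mono' (hf.integrable.abs.mul_const δ⁻¹) ?_ ?_
  · exact (hf.1.mul (((measurable_const.sub measurable_id).norm.max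
      measurable_const).inv)).aestronglyMeasurable
  · refine Eventually.of_forall fun y => ?_
    rw [norm_mul, Real.norm_eq_abs]
    refine mul_le_mul_of_nonneg_left ?_ (abs_nonneg _)
    have hpos : 0 < max ‖x - y‖ δ := lt_of_lt_of_le hδ (le_max_right _ _)
    rw [norm_inv, Real.norm_eq_abs, abs_of_pos hpos]
    exact inv_anti₀ hδ (le_max_right _ _)

lemma pot_sub_potT_le {f : E → ℝ} (hf : Adm f) {M : ℝ} (hM : ∀ x, |f x| ≤ M) {δ : ℝ}
    (hδ : 0 < δ) (x : E) : |pot f x - potT f δ x| ≤ M * (2 * π * δ ^ 2) := by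
  have hM0 : 0 ≤ M := (abs_nonneg _).trans (hM 0)
  have h1 : pot f x - potT f δ x = ∫ y, f y * (‖x - y‖⁻¹ - (max ‖x - y‖ δ)⁻¹) := by
    unfold pot potT
    rw [← integral_sub (hf.integrable_mul_kernel x) (hf.integrable_mul_kernelT x hδ)]
    congr 1; ext y; ring
  have hb := pot_indicator_ball x x δ hδ
  have hadm := adm_indicator_ball x δ
  have h2 : |∫ y, f y * (‖x - y‖⁻¹ - (max ‖x - y‖ δ)⁻¹)| ≤
      ∫ y, M * ((ball x δ).indicator (fun _ => (1 : ℝ)) y * ‖x - y‖⁻¹) := by
    rw [← Real.norm_eq_abs]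
    refine norm_integral_le_of_norm_le ((hadm.integrable_mul_kernel x).const_mul M) ?_
    filter_upwards [compl_mem_ae_iff.2 (measure_singleton x)] with y hyx
    have hyx' : y ≠ x := hyx
    rw [norm_mul, Real.norm_eq_abs]
    refine mul_le_mul (hM y) ?_ (norm_nonneg _) hM0
    by_cases h : y ∈ ball x δ
    · rw [indicator_of_mem h, one_mul]
      have hd : ‖x - y‖ < δ := by rwa [mem_ball, dist_comm, dist_eq_norm] at h
      rw [max_eq_right hd.le]
      have hpos : 0 < ‖x - y‖ := norm_pos_iff.2 (sub_ne_zero.2 hyx'.symm)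
      rw [Real.norm_eq_abs, abs_of_nonneg]
      · have : 0 < δ⁻¹ := inv_pos.2 hδ
        linarith
      · rw [sub_nonneg]
        exact inv_anti₀ hpos hd.le
    · rw [indicator_of_notMem h, zero_mul]
      have hd : δ ≤ ‖x - y‖ := by
        rw [mem_ball, dist_comm, dist_eq_norm] at h
        exact not_lt.1 h
      rw [max_eq_left hd, sub_self, norm_zero]
  rw [h1]
  refine h2.trans ?_
  rw [integral_const_mul]
  refine mul_le_mul_of_nonneg_left ?_ hM0
  have : ∫ y, (ball x δ).indicator (fun _ => (1 : ℝ)) y * ‖x - y‖⁻¹ = bp δ ‖x - x‖ := hb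
  rw [this]
  exact bp_le _ _ hδ

lemma pot_continuous {f : E → ℝ} (hf : Adm f) : Continuous (pot f) := by
  obtain ⟨M, hM⟩ := hf.2.1
  have hM0 : 0 ≤ M := (abs_nonneg _).trans (hM 0)
  rw [Metric.continuous_iff]
  intro x ε hε
  -- choose δ with M * 2π δ² < ε/3
  obtain ⟨δ, hδ, hδε⟩ : ∃ δ : ℝ, 0 < δ ∧ M * (2 * π * δ ^ 2) < ε / 3 := by
    have : Tendsto (fun δ : ℝ => M * (2 * π * δ ^ 2)) (𝓝[>] 0) (𝓝 (M * (2 * π * 0 ^ 2))) := by
      apply Tendsto.mono_left _ nhdsWithin_le_nhds
      exact (by fun_prop : Continuous fun δ : ℝ => M * (2 * π * δ ^ 2)).tendsto 0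
    simp only [ne_eq, OfNat.ofNat_ne_zero, not_false_eq_true, zero_pow, mul_zero] at this
    have h2 := this.eventually (gt_mem_nhds (show (0 : ℝ) < ε / 3 by linarith))
    obtain ⟨δ, h3, h4⟩ := (h2.and self_mem_nhdsWithin).exists
    exact ⟨δ, h4, h3⟩
  obtain ⟨η, hη, hη2⟩ := (Metric.continuous_iff.1 (potT_continuous hf hδ)) x (ε / 3) (by linarith)
  refine ⟨η, hη, fun y hy => ?_⟩
  have h1 := pot_sub_potT_le hf hM hδ x
  have h2 := pot_sub_potT_le hf hM hδ y
  have h3 := hη2 y hy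
  rw [Real.dist_eq] at h3 ⊢
  rw [abs_lt] at h3 ⊢
  rw [abs_le] at h1 h2
  constructor <;> linarith [h1.1, h1.2, h2.1, h2.2, h3.1, h3.2]

/-- The potential is bounded by `M` times the `L¹` norm over the distance to the support. -/
lemma pot_small_at_infinity {f : E → ℝ} (hf : Adm f) {a : ℝ} (ha : 0 < a) :
    ∃ R, ∀ x, x ∉ closedBall (0 : E) R → |pot f x| < a := by
  obtain ⟨R, hR⟩ := hf.2.2
  set I := ∫ y, |f y| with hI
  have hI0 : 0 ≤ I := integral_nonneg fun y => abs_nonneg _
  refine ⟨|R| + (I / a + 1), fun x hx => ?_⟩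
  rw [mem_closedBall_zero_iff, not_le] at hx
  set d := I / a + 1 with hd
  have hdpos : 0 < d := by positivity
  have h1 : |pot f x| ≤ ∫ y, |f y| * d⁻¹ := by
    unfold pot
    rw [← Real.norm_eq_abs]
    refine norm_integral_le_of_norm_le (hf.integrable.abs.mul_const _) ?_
    refine Eventually.of_forall fun y => ?_
    rw [norm_mul, Real.norm_eq_abs]
    by_cases hy : y ∈ closedBall (0 : E) R
    · refine mul_le_mul_of_nonneg_left ?_ (abs_nonneg _)
      rw [norm_inv, norm_norm]
      apply inv_anti₀ hdpos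
      rw [mem_closedBall_zero_iff] at hy
      have := norm_sub_norm_le x y
      have h2 := le_abs_self R
      linarith
    · rw [hR y hy]; simp
  rw [integral_mul_const] at h1
  refine lt_of_le_of_lt h1 ?_
  rw [← hI, ← div_eq_mul_inv, div_lt_iff₀ hdpos, hd]
  have : a * (I / a + 1) = I + a := by field_simp
  linarith

lemma Adm.mul_continuous {g h : E → ℝ} (hg : Adm g) (hh : Continuous h) :
    Adm (fun x => g x * h x) := by
  obtain ⟨mg, ⟨N, hN⟩, ⟨R, hR⟩⟩ := hg
  obtain ⟨C, hC⟩ := (isCompact_closedBall (0 : E) R).exists_bound_of_continuousOn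
    hh.continuousOn
  refine ⟨mg.mul hh.measurable, ⟨N * |C|, fun x => ?_⟩, ⟨R, fun x hx => ?_⟩⟩
  · by_cases hx : x ∈ closedBall (0 : E) R
    · rw [abs_mul]
      have h1 := hC x hx
      rw [Real.norm_eq_abs] at h1
      exact mul_le_mul (hN x) (h1.trans (le_abs_self C)) (abs_nonneg _)
        ((abs_nonneg _).trans (hN x))
    · show |g x * h x| ≤ _
      rw [hR x hx, zero_mul, abs_zero]
      exact mul_nonneg ((abs_nonneg _).trans (hN x)) (abs_nonneg _)
  · show g x * h x = 0
    rw [hR x hx, zero_mul]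

lemma Adm.abs {f : E → ℝ} (hf : Adm f) : Adm (fun x => |f x|) := by
  obtain ⟨mf, ⟨M, hM⟩, ⟨R, hR⟩⟩ := hf
  refine ⟨mf.norm, ⟨M, fun x => by rw [abs_abs]; exact hM x⟩, ⟨R, fun x hx => ?_⟩⟩
  show |f x| = 0
  rw [hR x hx, abs_zero]

lemma integrable_prod_kernel {f g : E → ℝ} (hf : Adm f) (hg : Adm g) :
    Integrable (fun p : E × E => g p.1 * (f p.2 * ‖p.1 - p.2‖⁻¹)) := by
  rw [Measure.volume_eq_prod, integrable_prod_iff]
  · constructor
    · exact Eventually.of_forall fun x => (hf.integrable_mul_kernel x).const_mul (g x)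
    · have h1 : (fun x => ∫ y, ‖g x * (f y * ‖x - y‖⁻¹)‖) = fun x => |g x| * pot (fun y => |f y|) x := by
        ext x
        unfold pot
        rw [← integral_const_mul]
        congr 1
        ext y
        simp
      rw [h1]
      exact (hg.abs.mul_continuous (pot_continuous hf.abs)).integrable
  · have : Measurable (fun p : E × E => g p.1 * (f p.2 * ‖p.1 - p.2‖⁻¹)) :=
      (hg.1.comp measurable_fst).mul ((hf.1.comp measurable_snd).mul
        ((measurable_fst.sub measurable_snd).norm.inv))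
    exact this.aestronglyMeasurable

/-- Symmetry of the energy form. -/
lemma pot_symm {f g : E → ℝ} (hf : Adm f) (hg : Adm g) :
    ∫ x, g x * pot f x = ∫ y, f y * pot g y := by
  have h := integral_integral_swap (f := fun x y => g x * (f y * ‖x - y‖⁻¹))
    (integrable_prod_kernel hf hg)
  unfold pot
  simp only [← integral_const_mul]
  rw [h]
  congr 1
  ext y
  congr 1
  ext x
  rw [norm_sub_rev y x]
  ring

/-- Fubini identity for averages of a potential over a ball. -/
lemma integral_ball_pot {f : E → ℝ} (hf : Adm f) (x : E) {r : ℝ} (hr : 0 < r) :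
    ∫ z in ball x r, pot f z = ∫ y, f y * bp r ‖x - y‖ := by
  rw [← integral_indicator measurableSet_ball]
  have h := pot_symm hf (adm_indicator_ball x r)
  have h1 : ∀ z, (ball x r).indicator (fun _ => (1 : ℝ)) z * pot f z
      = (ball x r).indicator (pot f) z := by
    intro z
    by_cases hz : z ∈ ball x r <;> simp [hz]
  simp only [h1] at h
  rw [h]
  congr 1
  ext y
  rw [pot_indicator_ball x y r hr]

/-- Volume of the ball. -/
lemma volume_real_ball (x : E) {r : ℝ} (hr : 0 < r) :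
    (volume : Measure E).real (ball x r) = 4 / 3 * π * r ^ 3 := by
  rw [Measure.real, EuclideanSpace.volume_ball_fin_three]
  rw [← ENNReal.ofReal_pow hr.le, ← ENNReal.ofReal_mul (by positivity),
    ENNReal.toReal_ofReal (by positivity)]
  ring

lemma bp_eq_of_le {r s : ℝ} (h : r ≤ s) : bp r s = 4 / 3 * π * r ^ 3 * s⁻¹ := by
  rw [bp, if_pos h, div_eq_mul_inv]

lemma bp_lt_of_lt {r s : ℝ} (hs : 0 < s) (h : s < r) :
    bp r s < 4 / 3 * π * r ^ 3 * s⁻¹ := by
  rw [bp, if_neg (not_le.2 h), ← div_eq_mul_inv, lt_div_iff₀ hs]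
  have h1 : 0 < (r - s) ^ 2 * (2 * r + s) := by
    have : 0 < r - s := by linarith
    have hr : 0 < r := by linarith
    positivity
  have h2 : 4 / 3 * r ^ 3 - 2 * (r ^ 2 - s ^ 2 / 3) * s = 2 / 3 * ((r - s) ^ 2 * (2 * r + s)) := by
    ring
  nlinarith [Real.pi_pos, mul_pos Real.pi_pos h1]

/-- Sub-mean value property: where the density is nonpositive the potential lies below its
averages. -/
lemma submean {f : E → ℝ} (hf : Adm f) (x : E) {r : ℝ} (hr : 0 < r)
    (h : ∀ᵐ y, y ∈ ball x r → f y ≤ 0) :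
    4 / 3 * π * r ^ 3 * pot f x ≤ ∫ z in ball x r, pot f z := by
  rw [integral_ball_pot hf x hr]
  unfold pot
  rw [← integral_const_mul]
  have hbp : ∀ y, bp r ‖x - y‖ = pot ((ball x r).indicator (fun _ => (1 : ℝ))) y :=
    fun y => (pot_indicator_ball x y r hr).symm
  apply integral_mono_ae
  · exact (hf.integrable_mul_kernel x).const_mul _
  · simp only [hbp]
    exact (hf.mul_continuous (pot_continuous (adm_indicator_ball x r))).integrable
  · filter_upwards [h, compl_mem_ae_iff.2 (measure_singleton x)] with y hy hyx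
    have hyx' : y ≠ x := hyx
    have hpos : 0 < ‖x - y‖ := norm_pos_iff.2 (sub_ne_zero.2 hyx'.symm)
    by_cases hd : r ≤ ‖x - y‖
    · rw [bp_eq_of_le hd]
      apply le_of_eq; ring
    · push Not at hd
      have h1 := hy (by rw [mem_ball, dist_comm, dist_eq_norm]; exact hd)
      have h2 := bp_lt_of_lt hpos hd
      nlinarith [mul_nonneg (neg_nonneg.2 h1) (sub_pos.2 h2).le]

/-- If a potential of a nonnegative density is equal to its average over a ball, the density
vanishes a.e. on the ball. -/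
lemma zero_of_mean {f : E → ℝ} (hf : Adm f) (h0 : ∀ y, 0 ≤ f y) (x : E) {r : ℝ} (hr : 0 < r)
    (h : 4 / 3 * π * r ^ 3 * pot f x = ∫ z in ball x r, pot f z) :
    ∀ᵐ y, y ∈ ball x r → f y = 0 := by
  rw [integral_ball_pot hf x hr] at h
  unfold pot at h
  rw [← integral_const_mul] at h
  have hbp : ∀ y, bp r ‖x - y‖ = pot ((ball x r).indicator (fun _ => (1 : ℝ))) y :=
    fun y => (pot_indicator_ball x y r hr).symm
  have i1 : Integrable (fun y => 4 / 3 * π * r ^ 3 * (f y * ‖x - y‖⁻¹)) :=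
    (hf.integrable_mul_kernel x).const_mul _
  have i2 : Integrable (fun y => f y * bp r ‖x - y‖) := by
    simp only [hbp]
    exact (hf.mul_continuous (pot_continuous (adm_indicator_ball x r))).integrable
  have h3 : ∫ y, (4 / 3 * π * r ^ 3 * (f y * ‖x - y‖⁻¹) - f y * bp r ‖x - y‖) = 0 := by
    rw [integral_sub i1 i2, h, sub_self]
  have hnn : ∀ᵐ y, 0 ≤ 4 / 3 * π * r ^ 3 * (f y * ‖x - y‖⁻¹) - f y * bp r ‖x - y‖ := by
    filter_upwards [compl_mem_ae_iff.2 (measure_singleton x)] with y hyx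
    have hyx' : y ≠ x := hyx
    have hpos : 0 < ‖x - y‖ := norm_pos_iff.2 (sub_ne_zero.2 hyx'.symm)
    by_cases hd : r ≤ ‖x - y‖
    · rw [bp_eq_of_le hd]
      apply le_of_eq; ring
    · push Not at hd
      have h2 := bp_lt_of_lt hpos hd
      nlinarith [mul_nonneg (h0 y) (sub_pos.2 h2).le]
  rw [integral_eq_zero_iff_of_nonneg_ae hnn (i1.sub i2)] at h3
  filter_upwards [h3, compl_mem_ae_iff.2 (measure_singleton x)] with y hy hyx hyb
  have hyx' : y ≠ x := hyx
  have hpos : 0 < ‖x - y‖ := norm_pos_iff.2 (sub_ne_zero.2 hyx'.symm)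
  have hd : ‖x - y‖ < r := by rwa [mem_ball, dist_comm, dist_eq_norm] at hyb
  have h2 := bp_lt_of_lt hpos hd
  have h4 : f y * (4 / 3 * π * r ^ 3 * ‖x - y‖⁻¹ - bp r ‖x - y‖) = 0 := by
    have : 4 / 3 * π * r ^ 3 * (f y * ‖x - y‖⁻¹) - f y * bp r ‖x - y‖ = 0 := hy
    linarith
  rcases mul_eq_zero.1 h4 with h5 | h5
  · exact h5
  · linarith

end Pool.Agent.HollowShell
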