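import Mathlib

set_option autoImplicit false
open MeasureTheory Set Metric
open scoped Real

namespace Pool.Agent.HollowShell

/-- Three-space. -/
abbrev E := EuclideanSpace ℝ (Fin 3)
/-- The plane. -/
abbrev P := EuclideanSpace ℝ (Fin 2)

/-- The point with first coordinate `a` and remaining coordinates `w`. -/
noncomputable def mk (a : ℝ) (w : P) : E := WithLp.toLp 2 (Fin.cons a (WithLp.ofLp w))

lemma norm_mk_sq (a : ℝ) (w : P) : ‖mk a w‖ ^ 2 = a ^ 2 + ‖w‖ ^ 2 := by
  rw [EuclideanSpace.norm_sq_eq, EuclideanSpace.norm_sq_eq]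
  simp [mk, Fin.sum_univ_succ]

lemma norm_mk (a : ℝ) (w : P) : ‖mk a w‖ = √(a ^ 2 + ‖w‖ ^ 2) := by
  rw [← norm_mk_sq, Real.sqrt_sq (norm_nonneg _)]

/-- The measurable equivalence of product with three-space. -/
noncomputable def sliceEquiv : ℝ × P ≃ᵐ E :=
  ((MeasurableEquiv.refl ℝ).prodCongr (MeasurableEquiv.toLp 2 (Fin 2 → ℝ)).symm).trans
    ((MeasurableEquiv.piFinSuccAbove (fun _ : Fin 3 => ℝ) 0).symm.trans
      (MeasurableEquiv.toLp 2 (Fin 3 → ℝ)))

lemma sliceEquiv_apply (p : ℝ × P) : sliceEquiv p = mk p.1 p.2 := by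
  have h : (Fin.cons p.1 (WithLp.ofLp p.2) : Fin 3 → ℝ)
      = Fin.insertNth (α := fun _ : Fin 3 => ℝ) 0 p.1 (WithLp.ofLp p.2) := by
    rw [Fin.insertNth_zero]; rfl
  simp only [mk, h]
  rfl

lemma measurePreserving_slice : MeasurePreserving sliceEquiv volume volume := by
  unfold sliceEquiv
  refine MeasurePreserving.trans (μb := volume) ?_ (MeasurePreserving.trans (μb := volume) ?_ ?_)
  · exact (MeasurePreserving.id volume).prod (PiLp.volume_preserving_ofLp (Fin 2))
  · exact (volume_preserving_piFinSuccAbove (fun _ : Fin 3 => ℝ) 0).symm _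
  · exact PiLp.volume_preserving_toLp (Fin 3)

lemma integral_slice {F : E → ℝ} (hF : Integrable F) :
    ∫ z, F z = ∫ a : ℝ, ∫ w : P, F (mk a w) := by
  rw [← measurePreserving_slice.integral_comp sliceEquiv.measurableEmbedding]
  rw [Measure.volume_eq_prod, integral_prod]
  · simp only [sliceEquiv_apply]
  · have := (measurePreserving_slice.integrable_comp_emb sliceEquiv.measurableEmbedding
      (g := F)).2 hF
    exact this

end Pool.Agent.HollowShell
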